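import Mathlib

set_option autoImplicit false

namespace Pool.Agent.Helper359

abbrev E2 := EuclideanSpace ℝ (Fin 2)

/-- determinant of two plane vectors -/
def dt (x y : E2) : ℝ := x 0 * y 1 - x 1 * y 0

/-- the function `N` is a norm on the plane -/
structure IsNm (N : E2 → ℝ) : Prop where
  add_le : ∀ x y, N (x + y) ≤ N x + N y
  smul : ∀ (c : ℝ) x, N (c • x) = |c| * N x
  pos : ∀ x, x ≠ 0 → 0 < N x
  cont : Continuous N

variable {N : E2 → ℝ}

theorem IsNm.zero (h : IsNm N) : N 0 = 0 := by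
  have := h.smul 0 0
  simpa using this

theorem IsNm.nonneg (h : IsNm N) (x : E2) : 0 ≤ N x := by
  by_cases hx : x = 0
  · rw [hx, h.zero]
  · exact (h.pos x hx).le

theorem IsNm.neg (h : IsNm N) (x : E2) : N (-x) = N x := by
  have := h.smul (-1) x
  simpa using this

theorem IsNm.sub_comm (h : IsNm N) (x y : E2) : N (x - y) = N (y - x) := by
  rw [← h.neg (x - y), neg_sub]

theorem IsNm.le_add (h : IsNm N) (x y : E2) : N x ≤ N (x + y) + N y := by
  have := h.add_le (x + y) (-y)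
  rw [h.neg] at this
  simpa using this

/-- reverse triangle inequality -/
theorem IsNm.sub_le (h : IsNm N) (x y : E2) : N x - N y ≤ N (x + y) := by
  have := h.le_add x y
  linarith

/-- rotation by a right angle -/
def rot (x : E2) : E2 := !₂[-x 1, x 0]

/-- affine-regular hexagon `±a, ±b, ±(b-a)` inscribed in the unit ball of `N`. -/
structure AR (N : E2 → ℝ) (a b : E2) : Prop where
  ha : N a = 1
  hb : N b = 1
  hc : N (b - a) = 1
  hd : 0 < dt a b

theorem dt_self_rot (x : E2) : dt x (rot x) = x 0 ^ 2 + x 1 ^ 2 := by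
  simp [dt, rot]; ring

theorem sq_pos_of_ne {x : E2} (hx : x ≠ 0) : 0 < x 0 ^ 2 + x 1 ^ 2 := by
  by_contra hcon
  push Not at hcon
  have h0 : x 0 = 0 := by nlinarith [sq_nonneg (x 0), sq_nonneg (x 1)]
  have h1 : x 1 = 0 := by nlinarith [sq_nonneg (x 0), sq_nonneg (x 1)]
  apply hx
  ext i
  fin_cases i
  · simpa using h0
  · simpa using h1

theorem exists_AR (h : IsNm N) {a : E2} (ha : N a = 1) : ∃ b, AR N a b := by
  have hane : a ≠ 0 := by
    intro h0
    rw [h0, h.zero] at ha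
    exact zero_ne_one ha
  have hsq := sq_pos_of_ne hane
  let v : ℝ → E2 := fun θ => Real.cos θ • a + Real.sin θ • rot a
  have hv : ∀ θ, v θ ≠ 0 := by
    intro θ h0
    have e0 : Real.cos θ * a 0 - Real.sin θ * a 1 = 0 := by
      have := congrArg (fun x : E2 => x 0) h0
      simp [v, rot] at this
      linarith
    have e1 : Real.cos θ * a 1 + Real.sin θ * a 0 = 0 := by
      have := congrArg (fun x : E2 => x 1) h0
      simp [v, rot] at this
      linarith
    have hcs := Real.sin_sq_add_cos_sq θ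
    have : (Real.sin θ ^ 2 + Real.cos θ ^ 2) * (a 0 ^ 2 + a 1 ^ 2) = 0 := by
      have h1 : (Real.cos θ * a 0 - Real.sin θ * a 1) ^ 2
        + (Real.cos θ * a 1 + Real.sin θ * a 0) ^ 2 = 0 := by rw [e0, e1]; ring
      nlinarith
    rw [hcs] at this
    linarith
  have hvc : Continuous v := by fun_prop
  let b : ℝ → E2 := fun θ => (N (v θ))⁻¹ • v θ
  have hNv : ∀ θ, 0 < N (v θ) := fun θ => h.pos _ (hv θ)
  have hbc : Continuous b := by
    have : Continuous fun θ => (N (v θ))⁻¹ :=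
      (h.cont.comp hvc).inv₀ (fun θ => (hNv θ).ne')
    exact this.smul hvc
  have hNb : ∀ θ, N (b θ) = 1 := by
    intro θ
    simp only [b]
    rw [h.smul, abs_of_pos (inv_pos.mpr (hNv θ))]
    exact inv_mul_cancel₀ (hNv θ).ne'
  let φ : ℝ → ℝ := fun θ => N (b θ - a)
  have hφc : Continuous φ := h.cont.comp (hbc.sub continuous_const)
  have hφ0 : φ 0 = 0 := by
    simp [φ, b, v, ha, h.zero]
  have hφπ : φ Real.pi = 2 := by
    have : b Real.pi - a = (-2 : ℝ) • a := by
      simp only [b, v, Real.cos_pi, Real.sin_pi, zero_smul, add_zero]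
      rw [h.smul, ha]
      simp
      rw [← neg_add', ← two_smul ℝ a]
    simp only [φ]
    rw [this, h.smul, ha]
    norm_num
  have hivt := intermediate_value_Icc (a := 0) (b := Real.pi) Real.pi_pos.le hφc.continuousOn
  have h1mem : (1 : ℝ) ∈ Set.Icc (φ 0) (φ Real.pi) := by
    rw [hφ0, hφπ]; constructor <;> norm_num
  obtain ⟨θ, hθ, hθ1⟩ := hivt h1mem
  have hθ0 : θ ≠ 0 := by
    intro h0; rw [h0, hφ0] at hθ1; exact zero_ne_one hθ1
  have hθπ : θ ≠ Real.pi := by
    intro h0; rw [h0, hφπ] at hθ1; norm_num at hθ1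
  have hsin : 0 < Real.sin θ :=
    Real.sin_pos_of_pos_of_lt_pi (lt_of_le_of_ne hθ.1 (Ne.symm hθ0)) (lt_of_le_of_ne hθ.2 hθπ)
  refine ⟨b θ, ha, hNb θ, hθ1, ?_⟩
  have : dt a (b θ) = (N (v θ))⁻¹ * (Real.sin θ * (a 0 ^ 2 + a 1 ^ 2)) := by
    simp [dt, b, v, rot]; ring
  rw [this]
  have := hNv θ
  positivity

/-- nonneg combinations -/
theorem AR.low1 (h : IsNm N) {a b : E2} (hab : AR N a b) {s t : ℝ} (hs : 0 ≤ s) (ht : 0 ≤ t) :
    s ≤ N (s • a + t • b) := by
  have e : s • a + t • b = (s + t) • a + t • (b - a) := by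
    rw [smul_sub, add_smul]; abel
  rw [e]
  have := h.sub_le ((s + t) • a) (t • (b - a))
  rw [h.smul, h.smul, hab.ha, hab.hc, abs_of_nonneg (by linarith), abs_of_nonneg ht] at this
  linarith

theorem AR.low2 (h : IsNm N) {a b : E2} (hab : AR N a b) {s t : ℝ} (hs : 0 ≤ s) (ht : 0 ≤ t) :
    t ≤ N (s • a + t • b) := by
  have e : s • a + t • b = (s + t) • b + (-s) • (b - a) := by
    rw [smul_sub, add_smul, neg_smul, neg_smul]; abel
  rw [e]
  have := h.sub_le ((s + t) • b) ((-s) • (b - a))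
  rw [h.smul, h.smul, hab.hb, hab.hc, abs_of_nonneg (by linarith), abs_neg, abs_of_nonneg hs] at this
  linarith

theorem AR.low3 (h : IsNm N) {a b : E2} (hab : AR N a b) {s t : ℝ} (ht : 0 ≤ t) (hst : t ≤ s) :
    t ≤ N (s • a - t • b) := by
  have e : s • a - t • b = (-s) • (b - a) + (s - t) • b := by
    rw [smul_sub, sub_smul, neg_smul, neg_smul]; abel
  rw [e]
  have := h.sub_le ((-s) • (b - a)) ((s - t) • b)
  rw [h.smul, h.smul, hab.hb, hab.hc, abs_neg, abs_of_nonneg (by linarith : (0:ℝ) ≤ s - t),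
    abs_of_nonneg (by linarith : (0:ℝ) ≤ s)] at this
  linarith

theorem AR.low4 (h : IsNm N) {a b : E2} (hab : AR N a b) {s t : ℝ} (hs : 0 ≤ s) (hst : s ≤ t) :
    s ≤ N (s • a - t • b) := by
  have e : s • a - t • b = (-t) • (b - a) + (s - t) • a := by
    rw [smul_sub, sub_smul, neg_smul, neg_smul]; abel
  rw [e]
  have := h.sub_le ((-t) • (b - a)) ((s - t) • a)
  rw [h.smul, h.smul, hab.ha, hab.hc, abs_neg, abs_of_nonpos (by linarith : s - t ≤ 0),
    abs_of_nonneg (by linarith : (0:ℝ) ≤ t)] at this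
  linarith

theorem AR.lattice (h : IsNm N) {a b : E2} (hab : AR N a b) {m n : ℤ} (hmn : (m, n) ≠ (0, 0)) :
    1 ≤ N ((m : ℝ) • a + (n : ℝ) • b) := by
  have key : ∀ m n : ℤ, (m, n) ≠ (0, 0) → 0 ≤ m → 1 ≤ N ((m : ℝ) • a + (n : ℝ) • b) := by
    intro m n hmn hm
    have hmR : (0:ℝ) ≤ m := by exact_mod_cast hm
    rcases le_or_gt 0 n with hn | hn
    · have hnR : (0:ℝ) ≤ n := by exact_mod_cast hn
      by_cases hm0 : m = 0
      · have hn0 : n ≠ 0 := by
          rintro rfl; exact hmn (by rw [hm0])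
        have : (1:ℝ) ≤ n := by exact_mod_cast (lt_of_le_of_ne hn (Ne.symm hn0))
        exact this.trans (hab.low2 h hmR hnR)
      · have : (1:ℝ) ≤ m := by exact_mod_cast (lt_of_le_of_ne hm (Ne.symm hm0))
        exact this.trans (hab.low1 h hmR hnR)
    · have hnR : (1:ℝ) ≤ ((-n : ℤ) : ℝ) := by exact_mod_cast (by omega : 1 ≤ -n)
      have e : (m : ℝ) • a + (n : ℝ) • b = (m : ℝ) • a - (((-n : ℤ)) : ℝ) • b := by
        push_cast; rw [neg_smul]; abel
      rw [e]
      rcases le_total (((-n : ℤ)) : ℝ) (m : ℝ) with hle | hle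
      · exact hnR.trans (hab.low3 h (by linarith) hle)
      · by_cases hm0 : m = 0
        · subst hm0
          rw [Int.cast_zero, zero_smul, zero_sub, h.neg, h.smul, hab.hb, abs_of_nonneg (by linarith)]
          linarith
        · have : (1:ℝ) ≤ m := by exact_mod_cast (lt_of_le_of_ne hm (Ne.symm hm0))
          exact this.trans (hab.low4 h hmR hle)
  rcases le_total 0 m with hm | hm
  · exact key m n hmn hm
  · have := key (-m) (-n) (by
      intro hh
      apply hmn
      rw [Prod.mk.injEq] at hh ⊢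
      omega) (by omega)
    rw [← h.neg] at this
    convert this using 2
    push_cast
    rw [neg_smul, neg_smul]; abel

end Pool.Agent.Helper359
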