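import Mathlib
import Pool.Agent.Helper359.Geo

set_option autoImplicit false

namespace Pool.Agent.Helper359

theorem mem_two {K : Set E2} (hconv : Convex ℝ K) (h0 : (0 : E2) ∈ K) {p q : E2}
    (hp : p ∈ K) (hq : q ∈ K) {c d : ℝ} (hc : 0 ≤ c) (hd : 0 ≤ d) (hcd : c + d ≤ 1) :
    c • p + d • q ∈ K := by
  have h1 := hconv.sum_mem (t := Finset.univ) (w := ![c, d, 1 - c - d]) (z := ![p, q, 0])
    (by
      intro i _
      fin_cases i
      · simpa using hc
      · simpa using hd
      · simp; linarith)
    (by simp [Fin.sum_univ_three])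
    (by
      intro i _
      fin_cases i
      · simpa using hp
      · simpa using hq
      · simpa using h0)
  simpa [Fin.sum_univ_three] using h1

theorem tri {K : Set E2} (hconv : Convex ℝ K) (hsymm : ∀ x ∈ K, -x ∈ K)
    {a x c u w : E2} (haK : a ∈ K) (hxK : x ∈ K) (hcK : c ∈ K)
    (hu : u = a + x) (hw : w = x + c)
    {α β γ : ℝ} (hα : 0 < α) (hβ : 0 < β) (hγ : 0 < γ) (hsum : α + β + γ = 1)
    (hx : x = α • u + β • w) {s t : ℝ} (hs : 0 ≤ s) (ht : 0 ≤ t) (hst : s + t ≤ 1) :
    s • u + t • w ∈ K ∨ s • u + t • w - u ∈ K ∨ s • u + t • w - w ∈ K := by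
  have h0 : (0 : E2) ∈ K := by
    have := hconv haK (hsymm a haK) (by norm_num : (0:ℝ) ≤ 1/2) (by norm_num : (0:ℝ) ≤ 1/2)
      (by norm_num)
    simpa using this
  have hu2 : (1/2 : ℝ) • u ∈ K := by
    have := hconv haK hxK (by norm_num : (0:ℝ) ≤ 1/2) (by norm_num : (0:ℝ) ≤ 1/2) (by norm_num)
    rw [hu, smul_add]; exact this
  have hw2 : (1/2 : ℝ) • w ∈ K := by
    have := hconv hxK hcK (by norm_num : (0:ℝ) ≤ 1/2) (by norm_num : (0:ℝ) ≤ 1/2) (by norm_num)
    rw [hw, smul_add]; exact this
  have hu2' : (-(1/2 : ℝ)) • u ∈ K := by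
    have := hsymm _ hu2
    rwa [← neg_smul] at this
  have hw2' : (-(1/2 : ℝ)) • w ∈ K := by
    have := hsymm _ hw2
    rwa [← neg_smul] at this
  have hxu : x - u ∈ K := by
    have : x - u = -a := by rw [hu]; abel
    rw [this]; exact hsymm a haK
  have hxw : x - w ∈ K := by
    have : x - w = -c := by rw [hw]; abel
    rw [this]; exact hsymm c hcK
  have hwu : (1/2 : ℝ) • (w - u) ∈ K := by
    have := hconv hcK (hsymm a haK) (by norm_num : (0:ℝ) ≤ 1/2) (by norm_num : (0:ℝ) ≤ 1/2)
      (by norm_num)
    have e : (1/2 : ℝ) • (w - u) = (1/2 : ℝ) • c + (1/2 : ℝ) • (-a) := by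
      rw [hw, hu]; module
    rw [e]; exact this
  have huw : (1/2 : ℝ) • (u - w) ∈ K := by
    have := hsymm _ hwu
    have e : (1/2 : ℝ) • (u - w) = -((1/2 : ℝ) • (w - u)) := by module
    rw [e]; exact this
  clear hu hw
  -- the smallest ratio
  by_cases hA : t / β ≤ s / α ∧ t / β ≤ (1 - s - t) / γ
  · -- pair 0, u
    obtain ⟨h1, h2⟩ := hA
    set l := t / β with hl
    have hl0 : 0 ≤ l := div_nonneg ht hβ.le
    have htl : t = l * β := by rw [hl]; field_simp
    have h1' : l * α ≤ s := by rwa [le_div_iff₀ hα] at h1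
    have h2' : l * γ ≤ 1 - s - t := by rwa [le_div_iff₀ hγ] at h2
    have hsum' : l * α + l * β + l * γ = l := by rw [← mul_add, ← mul_add, hsum, mul_one]
    by_cases hm : s - l * α ≤ 1 - s - t - l * γ
    · left
      have := mem_two hconv h0 hxK hu2 hl0 (by linarith : 0 ≤ 2 * (s - l * α)) (by linarith)
      convert this using 1
      rw [hx, htl]; module
    · right; left
      have := mem_two hconv h0 hxu hu2' hl0 (by linarith : 0 ≤ 2 * (1 - s - t - l * γ))
        (by linarith)
      convert this using 1
      have hs' : 1 - s - t - l * γ = 1 - s - l + l * α := by linarith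
      rw [hs', hx, htl]; module
  · by_cases hB : s / α ≤ t / β ∧ s / α ≤ (1 - s - t) / γ
    · obtain ⟨h1, h2⟩ := hB
      set l := s / α with hl
      have hl0 : 0 ≤ l := div_nonneg hs hα.le
      have htl : s = l * α := by rw [hl]; field_simp
      have h1' : l * β ≤ t := by rwa [le_div_iff₀ hβ] at h1
      have h2' : l * γ ≤ 1 - s - t := by rwa [le_div_iff₀ hγ] at h2
      have hsum' : l * α + l * β + l * γ = l := by rw [← mul_add, ← mul_add, hsum, mul_one]
      by_cases hm : t - l * β ≤ 1 - s - t - l * γ
      · left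
        have := mem_two hconv h0 hxK hw2 hl0 (by linarith : 0 ≤ 2 * (t - l * β)) (by linarith)
        convert this using 1
        rw [hx, htl]; module
      · right; right
        have := mem_two hconv h0 hxw hw2' hl0 (by linarith : 0 ≤ 2 * (1 - s - t - l * γ))
          (by linarith)
        convert this using 1
        have hs' : 1 - s - t - l * γ = 1 - t - l + l * β := by linarith
        rw [hs', hx, htl]; module
    · -- the ratio at 0 is smallest
      have hC : (1 - s - t) / γ ≤ s / α ∧ (1 - s - t) / γ ≤ t / β := by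
        rcases le_total (t / β) (s / α) with h | h
        · have : ¬ (t / β ≤ (1 - s - t) / γ) := fun h' => hA ⟨h, h'⟩
          push Not at this
          exact ⟨this.le.trans h, this.le⟩
        · have : ¬ (s / α ≤ (1 - s - t) / γ) := fun h' => hB ⟨h, h'⟩
          push Not at this
          exact ⟨this.le, this.le.trans h⟩
      obtain ⟨h1, h2⟩ := hC
      set l := (1 - s - t) / γ with hl
      have hl0 : 0 ≤ l := div_nonneg (by linarith) hγ.le
      have htl : 1 - s - t = l * γ := by rw [hl]; field_simp
      have h1' : l * α ≤ s := by rwa [le_div_iff₀ hα] at h1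
      have h2' : l * β ≤ t := by rwa [le_div_iff₀ hβ] at h2
      have hsum' : l * α + l * β + l * γ = l := by rw [← mul_add, ← mul_add, hsum, mul_one]
      by_cases hm : t - l * β ≤ s - l * α
      · right; left
        have := mem_two hconv h0 hxu hwu hl0 (by linarith : 0 ≤ 2 * (t - l * β)) (by linarith)
        convert this using 1
        rw [hx]
        match_scalars <;> linarith
      · right; right
        have := mem_two hconv h0 hxw huw hl0 (by linarith : 0 ≤ 2 * (s - l * α)) (by linarith)
        convert this using 1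
        rw [hx]
        match_scalars <;> linarith

theorem solve_two {S A B : ℝ} {x u w : E2} (hS : S ≠ 0) (e : S • x = A • u + B • w) :
    x = (A / S) • u + (B / S) • w := by
  have h1 : x = (1 / S) • (S • x) := by
    rw [smul_smul, one_div, inv_mul_cancel₀ hS, one_smul]
  rw [h1, e]
  match_scalars <;> field_simp

/-- Lattice covering by a centrally symmetric hexagon with vertices `±a, ±x, ±c`. -/
theorem cover {K : Set E2} (hconv : Convex ℝ K) (hsymm : ∀ x ∈ K, -x ∈ K)
    {a x c : E2} (haK : a ∈ K) (hxK : x ∈ K) (hcK : c ∈ K)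
    (h1 : 0 < dt a x) (h2 : 0 < dt x c) (h3 : 0 < dt a c) (p : E2) :
    ∃ m n : ℤ, p - ((m : ℝ) • (a + x) + (n : ℝ) • (x + c)) ∈ K := by
  set S := dt a x + dt x c + dt a c with hS
  have hSpos : 0 < S := by positivity
  set u := a + x with hu
  set w := x + c with hw
  have hxuw : x = (dt x c / S) • u + (dt a x / S) • w := by
    have e : S • x = dt x c • u + dt a x • w := by
      ext i
      fin_cases i <;> simp [hS, hu, hw, dt] <;> ring
    exact solve_two hSpos.ne' e
  set s := dt p w / S with hs
  set t := dt u p / S with ht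
  have hp : p = s • u + t • w := by
    have e : S • p = dt p w • u + dt u p • w := by
      ext i
      fin_cases i <;> simp [hS, hu, hw, dt] <;> ring
    exact solve_two hSpos.ne' e
  have hsum : dt x c / S + dt a x / S + dt a c / S = 1 := by
    rw [hS]; field_simp; ring
  have T := fun (s t : ℝ) hs ht hst => tri (s := s) (t := t) hconv hsymm haK hxK hcK hu hw
    (div_pos h2 hSpos) (div_pos h1 hSpos) (div_pos h3 hSpos) hsum hxuw hs ht hst
  have hfs := Int.fract_nonneg s
  have hft := Int.fract_nonneg t
  have hs1 := Int.fract_lt_one s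
  have ht1 := Int.fract_lt_one t
  have hse : s = ⌊s⌋ + Int.fract s := (Int.floor_add_fract s).symm
  have hte : t = ⌊t⌋ + Int.fract t := (Int.floor_add_fract t).symm
  rcases le_total (Int.fract s + Int.fract t) 1 with hle | hle
  · rcases T (Int.fract s) (Int.fract t) hfs hft hle with h | h | h
    · refine ⟨⌊s⌋, ⌊t⌋, ?_⟩
      convert h using 1
      rw [hp]
      match_scalars <;> linarith
    · refine ⟨⌊s⌋ + 1, ⌊t⌋, ?_⟩
      convert h using 1
      rw [hp]
      push_cast
      match_scalars <;> linarith
    · refine ⟨⌊s⌋, ⌊t⌋ + 1, ?_⟩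
      convert h using 1
      rw [hp]
      push_cast
      match_scalars <;> linarith
  · rcases T (1 - Int.fract s) (1 - Int.fract t) (by linarith) (by linarith) (by linarith)
      with h | h | h
    · refine ⟨⌊s⌋ + 1, ⌊t⌋ + 1, ?_⟩
      have := hsymm _ h
      convert this using 1
      rw [hp]
      push_cast
      match_scalars <;> linarith
    · refine ⟨⌊s⌋, ⌊t⌋ + 1, ?_⟩
      have := hsymm _ h
      convert this using 1
      rw [hp]
      push_cast
      match_scalars <;> linarith
    · refine ⟨⌊s⌋ + 1, ⌊t⌋, ?_⟩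
      have := hsymm _ h
      convert this using 1
      rw [hp]
      push_cast
      match_scalars <;> linarith

end Pool.Agent.Helper359
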