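import Mathlib
import Pool.Agent.Helper359.Geo

set_option autoImplicit false

namespace Pool.Agent.Helper359

variable {N : E2 → ℝ}

theorem dt_swap (x y : E2) : dt x y = - dt y x := by simp [dt]; ring

theorem dt_add_left (x y z : E2) : dt (x + y) z = dt x z + dt y z := by simp [dt]; ring

theorem dt_smul_left (c : ℝ) (x z : E2) : dt (c • x) z = c * dt x z := by simp [dt]; ring

theorem abs_dt_le (x y : E2) : |dt x y| ≤ ‖x‖ * ‖y‖ := by
  have hx : ‖x‖ ^ 2 = x 0 ^ 2 + x 1 ^ 2 := by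
    rw [EuclideanSpace.norm_sq_eq]; simp [Fin.sum_univ_two]
  have hy : ‖y‖ ^ 2 = y 0 ^ 2 + y 1 ^ 2 := by
    rw [EuclideanSpace.norm_sq_eq]; simp [Fin.sum_univ_two]
  apply abs_le_of_sq_le_sq _ (by positivity)
  rw [mul_pow, hx, hy]
  simp only [dt]
  nlinarith [sq_nonneg (x 0 * y 0 + x 1 * y 1)]

/-- The extremality hypothesis: all inscribed affine-regular hexagons have the same area and
are circumscribed by the corresponding strips. -/
structure Ext (N : E2 → ℝ) (D : ℝ) : Prop where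
  pos : 0 < D
  area : ∀ a b, AR N a b → dt a b = D
  strip : ∀ a b, AR N a b → ∀ x, N x ≤ 1 → dt ((2:ℝ) • a - b) x ≤ 2 * D

theorem AR.rot1 (h : IsNm N) {a b : E2} (hab : AR N a b) : AR N b (b - a) := by
  refine ⟨hab.hb, hab.hc, ?_, ?_⟩
  · have : b - a - b = -a := by abel
    rw [this, h.neg, hab.ha]
  · have := hab.hd
    simp [dt] at this ⊢
    linarith

theorem AR.rot2 (h : IsNm N) {a b : E2} (hab : AR N a b) : AR N (a - b) a := by
  refine ⟨?_, hab.ha, ?_, ?_⟩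
  · rw [h.sub_comm]; exact hab.hc
  · have : a - (a - b) = b := by abel
    rw [this, hab.hb]
  · have := hab.hd
    simp [dt] at this ⊢
    linarith

/-- the three strips -/
theorem Ext.stripB (h : IsNm N) {D : ℝ} (hE : Ext N D) {a b : E2} (hab : AR N a b) {x : E2}
    (hx : N x ≤ 1) : |dt ((2:ℝ) • a - b) x| ≤ 2 * D := by
  rw [abs_le]
  constructor
  · have := hE.strip a b hab (-x) (by rwa [h.neg])
    simp [dt] at this ⊢
    linarith
  · exact hE.strip a b hab x hx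

theorem Ext.stripA (h : IsNm N) {D : ℝ} (hE : Ext N D) {a b : E2} (hab : AR N a b) {x : E2}
    (hx : N x ≤ 1) : |dt ((2:ℝ) • b - a) x| ≤ 2 * D := by
  have := hE.stripB h (hab.rot2 h) hx
  rw [abs_le] at this ⊢
  simp [dt] at this ⊢
  constructor <;> linarith [this.1, this.2]

theorem Ext.stripC (h : IsNm N) {D : ℝ} (hE : Ext N D) {a b : E2} (hab : AR N a b) {x : E2}
    (hx : N x ≤ 1) : |dt (a + b) x| ≤ 2 * D := by
  have := hE.stripB h (hab.rot1 h) hx
  rw [abs_le] at this ⊢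
  simp [dt] at this ⊢
  constructor <;> linarith [this.1, this.2]

/-- the quadratic form attached to a hexagon -/
def Qf (a b y : E2) : ℝ := dt y ((2:ℝ) • b - a) ^ 2 + 3 * dt a y ^ 2

theorem real_core1 {u s V W ω : ℝ} (hu : 0 ≤ u) (hs : 0 ≤ s) (hu1 : u ≤ 1/10)
    (hV : |V| ≤ 1/20) (hW : |W| ≤ 2)
    (hdet : (1 - u) * (1 - s) - W * V = 1) (hω : W = -3 * V + ω)
    (h1 : |ω| ≤ u + 3 * s) (h2 : |ω| ≤ 3 * u + s) : s ≤ 1/10 ∧ u + s ≤ 4 * V ^ 2 := by
  have hVa := abs_nonneg V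
  have hωa := abs_nonneg ω
  have hWV : |W * V| ≤ 2 * |V| := by
    rw [abs_mul]; exact mul_le_mul_of_nonneg_right hW hVa
  have hWV' := (abs_le.mp hWV).1
  have hs1 : s ≤ 1/10 := by
    by_contra hcon
    push Not at hcon
    have : (1 - u) * (1 - s) ≤ 1 - s ∨ 1 - s ≤ 0 := by
      rcases le_total 0 (1 - s) with hh | hh
      · left
        nlinarith [mul_nonneg hu hh]
      · right; exact hh
    rcases this with this | this
    · linarith
    · have : (1 - u) * (1 - s) ≤ 0 := mul_nonpos_of_nonneg_of_nonpos (by linarith) this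
      linarith
  refine ⟨hs1, ?_⟩
  have hωV : |ω * V| ≤ |ω| * |V| := by rw [abs_mul]
  have hωV' := (abs_le.mp hωV).1
  have hω2 : |ω| ≤ 2 * (u + s) := by linarith
  have he : u + s = u * s + 3 * V ^ 2 - ω * V := by
    rw [hω] at hdet; linarith
  have hus : u * s ≤ 1/10 * s := mul_le_mul_of_nonneg_right hu1 hs
  have hωV2 : |ω| * |V| ≤ (2 * (u + s)) * (1/20) :=
    mul_le_mul hω2 hV hVa (by linarith)
  linarith

theorem real_core2 {u s V ω : ℝ} (hu : 0 ≤ u) (hs : 0 ≤ s) (hu1 : u ≤ 1/10)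
    (hs1 : s ≤ 1/10) (hV : |V| ≤ 1/20) (he : u + s ≤ 4 * V ^ 2) (hω : |ω| ≤ 8 * V ^ 2) :
    |(1 - s) ^ 2 - 1 + 3 * V ^ 2| ≤ 12 * V ^ 2 ∧
    |(3 * V - ω) ^ 2 + 3 * (1 - u) ^ 2 - 3| ≤ 50 * V ^ 2 ∧
    |(1 - s) * (3 * V - ω) - 3 * V * (1 - u)| ≤ 10 * V ^ 2 := by
  have hVa := abs_nonneg V
  have hωa := abs_nonneg ω
  have hVsq : V ^ 2 ≤ 1/400 := by
    rw [← sq_abs V]
    have := mul_le_mul hV hV hVa (by norm_num)
    rw [← pow_two] at this
    linarith
  have hV0 : 0 ≤ V ^ 2 := sq_nonneg V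
  have hs4 : s ≤ 4 * V ^ 2 := by linarith
  have hu4 : u ≤ 4 * V ^ 2 := by linarith
  have hss : s ^ 2 ≤ 1/10 * s := by
    rw [pow_two]; exact mul_le_mul_of_nonneg_right hs1 hs
  have huu : u ^ 2 ≤ 1/10 * u := by
    rw [pow_two]; exact mul_le_mul_of_nonneg_right hu1 hu
  have hωV3 : |ω| * |V| ≤ (8 * V ^ 2) * (1/20) := mul_le_mul hω hV hVa (by positivity)
  have hωV : |ω * V| ≤ (8 * V ^ 2) * (1/20) := by rw [abs_mul]; exact hωV3
  have hωV' := abs_le.mp hωV
  have hω4 := abs_le.mp hω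
  have hωsq : ω ^ 2 ≤ (8 * V ^ 2) * (1/50) := by
    rw [← sq_abs ω, pow_two]
    exact mul_le_mul hω (by linarith) hωa (by positivity)
  have hω0 : 0 ≤ ω ^ 2 := sq_nonneg ω
  refine ⟨?_, ?_, ?_⟩
  · have e : (1 - s) ^ 2 - 1 + 3 * V ^ 2 = -2 * s + s ^ 2 + 3 * V ^ 2 := by ring
    rw [e, abs_le]
    constructor <;> linarith [sq_nonneg s]
  · have e : (3 * V - ω) ^ 2 + 3 * (1 - u) ^ 2 - 3
        = 9 * V ^ 2 - 6 * (ω * V) + ω ^ 2 - 6 * u + 3 * u ^ 2 := by ring
    rw [e, abs_le]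
    constructor <;> linarith [sq_nonneg u, hωV'.1, hωV'.2]
  · have e : (1 - s) * (3 * V - ω) - 3 * V * (1 - u) = -ω + (s * ω - 3 * (s * V)) + 3 * (u * V) := by
      ring
    rw [e]
    have b1 : |s * ω| ≤ 1/10 * (8 * V ^ 2) := by
      rw [abs_mul, abs_of_nonneg hs]
      exact mul_le_mul hs1 hω hωa (by norm_num)
    have b2 : |s * V| ≤ (4 * V ^ 2) * (1/20) := by
      rw [abs_mul, abs_of_nonneg hs]
      exact mul_le_mul hs4 hV hVa (by positivity)
    have b3 : |u * V| ≤ (4 * V ^ 2) * (1/20) := by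
      rw [abs_mul, abs_of_nonneg hu]
      exact mul_le_mul hu4 hV hVa (by positivity)
    rw [abs_le] at b1 b2 b3 ⊢
    constructor <;> linarith [b1.1, b1.2, b2.1, b2.2, b3.1, b3.2, hω4.1, hω4.2]

theorem real_core3 {V A B C X Y : ℝ} (hA : |A| ≤ 12 * V ^ 2) (hB : |B| ≤ 50 * V ^ 2)
    (hC : |C| ≤ 10 * V ^ 2) :
    |X ^ 2 * A + Y ^ 2 * B + 2 * (X * Y) * C| ≤ 22 * V ^ 2 * (X ^ 2 + 3 * Y ^ 2) := by
  have t1 : |X ^ 2 * A| ≤ X ^ 2 * (12 * V ^ 2) := by
    rw [abs_mul, abs_of_nonneg (sq_nonneg X)]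
    exact mul_le_mul_of_nonneg_left hA (sq_nonneg X)
  have t2 : |Y ^ 2 * B| ≤ Y ^ 2 * (50 * V ^ 2) := by
    rw [abs_mul, abs_of_nonneg (sq_nonneg Y)]
    exact mul_le_mul_of_nonneg_left hB (sq_nonneg Y)
  have t3 : |2 * (X * Y) * C| ≤ (X ^ 2 + Y ^ 2) * (10 * V ^ 2) := by
    rw [abs_mul]
    apply mul_le_mul _ hC (abs_nonneg _) (by positivity)
    rw [abs_le]
    constructor <;> nlinarith [sq_nonneg (X + Y), sq_nonneg (X - Y)]
  have t4 := abs_add_le (X ^ 2 * A + Y ^ 2 * B) (2 * (X * Y) * C)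
  have t5 := abs_add_le (X ^ 2 * A) (Y ^ 2 * B)
  have t6 : 0 ≤ V ^ 2 * Y ^ 2 := by positivity
  linarith

theorem real_core {u s V W ω X Y : ℝ} (hu : 0 ≤ u) (hs : 0 ≤ s) (hu1 : u ≤ 1/10)
    (hV : |V| ≤ 1/20) (hW : |W| ≤ 2)
    (hdet : (1 - u) * (1 - s) - W * V = 1) (hω : W = -3 * V + ω)
    (h1 : |ω| ≤ u + 3 * s) (h2 : |ω| ≤ 3 * u + s) :
    |(X * (1 - s) - Y * W) ^ 2 + 3 * (-(X * V) + Y * (1 - u)) ^ 2 - (X ^ 2 + 3 * Y ^ 2)|
      ≤ 22 * V ^ 2 * (X ^ 2 + 3 * Y ^ 2) := by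
  obtain ⟨hs1, he⟩ := real_core1 hu hs hu1 hV hW hdet hω h1 h2
  have hω3 : |ω| ≤ 8 * V ^ 2 := by linarith
  obtain ⟨hA, hB, hC⟩ := real_core2 hu hs hu1 hs1 hV he hω3
  have expand : (X * (1 - s) - Y * W) ^ 2 + 3 * (-(X * V) + Y * (1 - u)) ^ 2
      - (X ^ 2 + 3 * Y ^ 2) = X ^ 2 * ((1 - s) ^ 2 - 1 + 3 * V ^ 2)
      + Y ^ 2 * ((3 * V - ω) ^ 2 + 3 * (1 - u) ^ 2 - 3)
      + 2 * (X * Y) * ((1 - s) * (3 * V - ω) - 3 * V * (1 - u)) := by
    rw [hω]; ring
  rw [expand]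
  exact real_core3 hA hB hC

theorem compare (h : IsNm N) {D : ℝ} (hE : Ext N D) {a b a' b' : E2} (hab : AR N a b)
    (hab' : AR N a' b') (hclose1 : |dt a a'| ≤ D / 10)
    (hclose2 : |dt (a' - a) ((2:ℝ) • b - a)| ≤ D / 5) (y : E2) :
    |Qf a' b' y - Qf a b y| ≤ 22 * (dt a a' / (2 * D)) ^ 2 * Qf a b y := by
  have hD := hE.pos
  have hA := hE.area a b hab
  have hA' := hE.area a' b' hab'
  set g := (2:ℝ) • b - a with hg
  set g' := (2:ℝ) • b' - a' with hg'
  have hag : dt a g = 2 * D := by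
    rw [← hA, hg]; simp [dt]; ring
  have hag' : dt a' g' = 2 * D := by
    rw [← hA', hg']; simp [dt]; ring
  set V := dt a a' / (2 * D) with hV
  set W := dt g' g / (2 * D) with hW
  set u := 1 - dt a' g / (2 * D) with hu
  set s := 1 - dt a g' / (2 * D) with hs
  have e1 : dt a a' = 2 * D * V := by rw [hV]; field_simp
  have e2 : dt g' g = 2 * D * W := by rw [hW]; field_simp
  have e3 : dt a' g = 2 * D * (1 - u) := by rw [hu]; field_simp; ring
  have e4 : dt a g' = 2 * D * (1 - s) := by rw [hs]; field_simp; ring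
  set X := dt y g / (2 * D) with hX
  set Y := dt a y / (2 * D) with hY
  have e5 : dt y g = 2 * D * X := by rw [hX]; field_simp
  have e6 : dt a y = 2 * D * Y := by rw [hY]; field_simp
  have hD0 : (2 * D) ≠ 0 := by positivity
  -- Plücker
  have hdet : (1 - u) * (1 - s) - W * V = 1 := by
    have pl : dt a' g * dt a g' - dt g' g * dt a a' = dt a g * dt a' g' := by
      simp [dt]; ring
    rw [e1, e2, e3, e4, hag, hag'] at pl
    have : (2 * D) ^ 2 * ((1 - u) * (1 - s) - W * V) = (2 * D) ^ 2 * 1 := by linarith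
    exact mul_left_cancel₀ (pow_ne_zero 2 hD0) this
  -- y in the frame (a, g)
  have f1 : dt y g' = 2 * D * (X * (1 - s) - Y * W) := by
    have pl : dt a g * dt y g' = dt y g * dt a g' - dt a y * dt g' g := by
      simp [dt]; ring
    rw [hag, e5, e4, e6, e2] at pl
    have : (2 * D) * dt y g' = (2 * D) * (2 * D * (X * (1 - s) - Y * W)) := by linarith
    exact mul_left_cancel₀ hD0 this
  have f2 : dt a' y = 2 * D * (-(X * V) + Y * (1 - u)) := by
    have pl : dt a g * dt a' y = - (dt y g * dt a a') + dt a y * dt a' g := by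
      simp [dt]; ring
    rw [hag, e5, e1, e6, e3] at pl
    have : (2 * D) * dt a' y = (2 * D) * (2 * D * (-(X * V) + Y * (1 - u))) := by linarith
    exact mul_left_cancel₀ hD0 this
  have hNa : N a ≤ 1 := hab.ha.le
  have hNb : N b ≤ 1 := hab.hb.le
  have hNc : N (b - a) ≤ 1 := hab.hc.le
  have hNa' : N a' ≤ 1 := hab'.ha.le
  have hNb' : N b' ≤ 1 := hab'.hb.le
  have hNc' : N (b' - a') ≤ 1 := hab'.hc.le
  have u0 : 0 ≤ u := by
    have := (abs_le.mp (hE.stripA h hab hNa')).1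
    rw [← hg, dt_swap, e3] at this
    have k : D * 0 ≤ D * u := by linarith
    exact le_of_mul_le_mul_left k hD
  have s0 : 0 ≤ s := by
    have := (abs_le.mp (hE.stripA h hab' hNa)).1
    rw [← hg', dt_swap, e4] at this
    have k : D * 0 ≤ D * s := by linarith
    exact le_of_mul_le_mul_left k hD
  have hWb : |W| ≤ 2 := by
    have k1 := abs_le.mp (hE.stripA h hab hNb')
    have k2 := abs_le.mp (hE.stripA h hab hNc')
    rw [← hg] at k1 k2
    have : dt g' g = -(dt g b' + dt g (b' - a')) := by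
      rw [hg']; simp [dt]; ring
    rw [e2] at this
    have k3 : |D * W| ≤ D * 2 := by
      rw [abs_le]
      constructor <;> linarith [k1.1, k1.2, k2.1, k2.2]
    rw [abs_mul, abs_of_pos hD] at k3
    exact le_of_mul_le_mul_left k3 hD
  -- the mixed inequalities
  have m1 : 3 * V + W ≤ u + 3 * s := by
    have := (abs_le.mp (hE.stripB h hab hNb')).2
    have e : 4 * dt ((2:ℝ) • a - b) b' = 3 * dt a a' + 3 * dt a g' + dt a' g + dt g' g := by
      rw [hg, hg']; simp [dt]; ring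
    rw [e1, e2, e3, e4] at e
    have k : 3 * (2 * D * V) + 3 * (2 * D * (1 - s)) + 2 * D * (1 - u) + 2 * D * W ≤ 8 * D := by
      linarith
    have : D * (3 * V + W) ≤ D * (u + 3 * s) := by linarith
    exact le_of_mul_le_mul_left this hD
  have m2 : -(3 * V + W) ≤ u + 3 * s := by
    have := (abs_le.mp (hE.stripC h hab hNc')).2
    have e : 4 * dt (a + b) (b' - a') = -(3 * dt a a') + 3 * dt a g' + dt a' g - dt g' g := by
      rw [hg, hg']; simp [dt]; ring
    rw [e1, e2, e3, e4] at e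
    have k : -(3 * (2 * D * V)) + 3 * (2 * D * (1 - s)) + 2 * D * (1 - u) - 2 * D * W ≤ 8 * D := by
      linarith
    have : D * (-(3 * V + W)) ≤ D * (u + 3 * s) := by linarith
    exact le_of_mul_le_mul_left this hD
  have m3 : -(3 * V + W) ≤ 3 * u + s := by
    have := (abs_le.mp (hE.stripB h hab' hNb)).2
    have e : 4 * dt ((2:ℝ) • a' - b') b = -(3 * dt a a') + 3 * dt a' g + dt a g' - dt g' g := by
      rw [hg, hg']; simp [dt]; ring
    rw [e1, e2, e3, e4] at e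
    have k : -(3 * (2 * D * V)) + 3 * (2 * D * (1 - u)) + 2 * D * (1 - s) - 2 * D * W ≤ 8 * D := by
      linarith
    have : D * (-(3 * V + W)) ≤ D * (3 * u + s) := by linarith
    exact le_of_mul_le_mul_left this hD
  have m4 : 3 * V + W ≤ 3 * u + s := by
    have := (abs_le.mp (hE.stripC h hab' hNc)).2
    have e : 4 * dt (a' + b') (b - a) = (3 * dt a a') + 3 * dt a' g + dt a g' + dt g' g := by
      rw [hg, hg']; simp [dt]; ring
    rw [e1, e2, e3, e4] at e
    have k : (3 * (2 * D * V)) + 3 * (2 * D * (1 - u)) + 2 * D * (1 - s) + 2 * D * W ≤ 8 * D := by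
      linarith
    have : D * (3 * V + W) ≤ D * (3 * u + s) := by linarith
    exact le_of_mul_le_mul_left this hD
  have u1 : u ≤ 1/10 := by
    have e : dt (a' - a) g = - (2 * D * u) := by
      have : dt (a' - a) g = dt a' g - dt a g := by simp [dt]; ring
      rw [this, e3, hag]; ring
    rw [e, abs_neg, abs_of_nonneg (by positivity)] at hclose2
    have : D * u ≤ D * (1/10) := by linarith
    exact le_of_mul_le_mul_left this hD
  have V1 : |V| ≤ 1/20 := by
    rw [hV, abs_div, abs_of_pos (by positivity : 0 < 2 * D), div_le_iff₀ (by positivity)]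
    linarith
  have main := real_core (X := X) (Y := Y) (ω := 3 * V + W) u0 s0 u1 V1 hWb hdet (by ring)
    (abs_le.mpr ⟨by linarith, m1⟩) (abs_le.mpr ⟨by linarith, m4⟩)
  have q1 : Qf a b y = (2 * D) ^ 2 * (X ^ 2 + 3 * Y ^ 2) := by
    simp only [Qf]
    rw [← hg, e5, e6]; ring
  have q2 : Qf a' b' y = (2 * D) ^ 2 * ((X * (1 - s) - Y * W) ^ 2
      + 3 * (-(X * V) + Y * (1 - u)) ^ 2) := by
    simp only [Qf]
    rw [← hg', f1, f2]; ring
  rw [q1, q2, ← mul_sub, abs_mul, abs_of_nonneg (by positivity : 0 ≤ (2 * D) ^ 2)]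
  have := mul_le_mul_of_nonneg_left main (by positivity : 0 ≤ (2 * D) ^ 2)
  linarith

end Pool.Agent.Helper359
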