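import Mathlib
import Pool.Agent.Helper359.Geo
import Pool.Agent.Helper359.Rigid

set_option autoImplicit false

namespace Pool.Agent.Helper359

open Filter Topology Asymptotics

variable {N : E2 → ℝ}

theorem Qf_indep (h : IsNm N) {D : ℝ} (hE : Ext N D) {a b b' : E2} (hab : AR N a b)
    (hab' : AR N a b') (y : E2) : Qf a b' y = Qf a b y := by
  have hD := hE.pos
  have hself : dt a a = 0 := by simp [dt]; ring
  have := compare h hE hab hab' (by rw [hself]; simp; positivity)
    (by simp [dt]; positivity) y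
  rw [hself] at this
  simp at this
  linarith

theorem Qf_rot (a b y : E2) : Qf b (b - a) y = Qf a b y := by
  simp [Qf, dt]; ring

theorem dt_cont : Continuous fun p : E2 × E2 => dt p.1 p.2 := by
  unfold dt
  fun_prop

theorem Qf_eq_of_dt_ne (h : IsNm N) {D : ℝ} (hE : Ext N D) {a b a' b' : E2} (hab : AR N a b)
    (hab' : AR N a' b') (hne : dt a a' ≠ 0) (y : E2) : Qf a' b' y = Qf a b y := by
  have hD := hE.pos
  let v : ℝ → E2 := fun t => a + t • (a' - a)
  have hvdt : ∀ t t', dt (v t) (v t') = (t' - t) * dt a a' := by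
    intro t t'
    simp [v, dt]; ring
  have hv0 : ∀ t, v t ≠ 0 := by
    intro t h0
    have := hvdt t (t + 1)
    rw [h0] at this
    simp [dt] at this
    apply hne
    simp [dt]
    linarith
  have hvc : Continuous v := by fun_prop
  have hNv : ∀ t, 0 < N (v t) := fun t => h.pos _ (hv0 t)
  let A : ℝ → E2 := fun t => (N (v t))⁻¹ • v t
  have hNinv : Continuous fun t => (N (v t))⁻¹ :=
      (h.cont.comp hvc).inv₀ (fun t => (hNv t).ne')
  have hAc : Continuous A := hNinv.smul hvc
  have hNA : ∀ t, N (A t) = 1 := by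
    intro t
    simp only [A]
    rw [h.smul, abs_of_pos (inv_pos.mpr (hNv t))]
    exact inv_mul_cancel₀ (hNv t).ne'
  choose B hB using fun t => exists_AR h (hNA t)
  have hA0 : A 0 = a := by
    simp [A, v, hab.ha]
  have hA1 : A 1 = a' := by
    simp [A, v, hab'.ha]
  let f : ℝ → ℝ := fun t => Qf (A t) (B t) y
  have hder : ∀ t, HasDerivAt f 0 t := by
    intro t
    have key : (fun t' => f t' - f t) =O[𝓝 t] fun t' => (t' - t) ^ 2 := by
      have c1 : ∀ᶠ t' in 𝓝 t, |dt (A t) (A t')| < D / 10 := by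
        have : Continuous fun t' => |dt (A t) (A t')| :=
          (dt_cont.comp (continuous_const.prodMk hAc)).abs
        apply this.continuousAt.eventually_lt continuousAt_const
        have : dt (A t) (A t) = 0 := by simp [dt]; ring
        simp only [this, abs_zero]
        positivity
      have c2 : ∀ᶠ t' in 𝓝 t, |dt (A t' - A t) ((2:ℝ) • B t - A t)| < D / 5 := by
        have : Continuous fun t' => |dt (A t' - A t) ((2:ℝ) • B t - A t)| :=
          (dt_cont.comp ((hAc.sub continuous_const).prodMk continuous_const)).abs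
        apply this.continuousAt.eventually_lt continuousAt_const
        simp [dt]
        positivity
      have c3 : ∀ᶠ t' in 𝓝 t, (N (v t'))⁻¹ < (N (v t))⁻¹ + 1 := by
        apply hNinv.continuousAt.eventually_lt continuousAt_const
        linarith
      apply IsBigO.of_bound
        (22 * ((N (v t))⁻¹ * ((N (v t))⁻¹ + 1) * |dt a a'| / (2 * D)) ^ 2 * Qf (A t) (B t) y)
      filter_upwards [c1, c2, c3] with t' h1 h2 h3
      have hcmp := compare h hE (hB t) (hB t') h1.le h2.le y
      have hQ : 0 ≤ Qf (A t) (B t) y := by simp only [Qf]; positivity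
      have e : dt (A t) (A t') = (N (v t))⁻¹ * (N (v t'))⁻¹ * ((t' - t) * dt a a') := by
        rw [← hvdt]
        simp [A, dt]; ring
      have hp1 := inv_pos.mpr (hNv t)
      have hp2 := inv_pos.mpr (hNv t')
      have hb : (dt (A t) (A t') / (2 * D)) ^ 2
          ≤ ((N (v t))⁻¹ * ((N (v t))⁻¹ + 1) * |dt a a'| / (2 * D)) ^ 2 * (t' - t) ^ 2 := by
        rw [e]
        have : ((N (v t))⁻¹ * (N (v t'))⁻¹ * ((t' - t) * dt a a') / (2 * D)) ^ 2
            = ((N (v t))⁻¹ * (N (v t'))⁻¹ * |dt a a'| / (2 * D)) ^ 2 * (t' - t) ^ 2 := by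
          rw [div_pow, div_pow, mul_pow, mul_pow _ |dt a a'|, sq_abs]; ring
        rw [this]
        gcongr
      rw [Real.norm_eq_abs, Real.norm_eq_abs, abs_of_nonneg (sq_nonneg (t' - t))]
      calc |f t' - f t| ≤ 22 * (dt (A t) (A t') / (2 * D)) ^ 2 * Qf (A t) (B t) y := hcmp
        _ ≤ 22 * (((N (v t))⁻¹ * ((N (v t))⁻¹ + 1) * |dt a a'| / (2 * D)) ^ 2 * (t' - t) ^ 2)
            * Qf (A t) (B t) y := by gcongr
        _ = _ := by ring
    rw [hasDerivAt_iff_isLittleO]
    have : (fun t' => f t' - f t - (t' - t) • (0:ℝ)) = fun t' => f t' - f t := by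
      funext t'; simp
    rw [this]
    refine key.trans_isLittleO ?_
    have h0 : Tendsto (fun t' : ℝ => t' - t) (𝓝 t) (𝓝 0) := by
      have : Tendsto (fun t' : ℝ => t' - t) (𝓝 t) (𝓝 (t - t)) := tendsto_id.sub tendsto_const_nhds
      rwa [sub_self] at this
    have := (isLittleO_pow_id (𝕜 := ℝ) (n := 2) (by norm_num)).comp_tendsto h0
    exact this
  have hdiff : Differentiable ℝ f := fun t => (hder t).differentiableAt
  have hconst := is_const_of_deriv_eq_zero hdiff (fun t => (hder t).deriv) 1 0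
  have e1 : f 1 = Qf a' b' y := by
    have hB1 : AR N a' (B 1) := by
      have := hB 1
      rwa [hA1] at this
    simp only [f]
    rw [hA1]
    exact Qf_indep h hE hab' hB1 y
  have e0 : f 0 = Qf a b y := by
    have hB0 : AR N a (B 0) := by
      have := hB 0
      rwa [hA0] at this
    simp only [f]
    rw [hA0]
    exact Qf_indep h hE hab hB0 y
  rw [← e1, ← e0, hconst]

theorem Qf_const (h : IsNm N) {D : ℝ} (hE : Ext N D) {a b a' b' : E2} (hab : AR N a b)
    (hab' : AR N a' b') (y : E2) : Qf a' b' y = Qf a b y := by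
  by_cases hne : dt a a' = 0
  · rw [← Qf_rot a b y]
    refine Qf_eq_of_dt_ne h hE (hab.rot1 h) hab' ?_ y
    intro h0
    have hD := hab.hd
    have ha' : a' = 0 := by
      have e : dt a b • a' = dt a' b • a + dt a a' • b := by
        ext i
        fin_cases i <;> simp [dt] <;> ring
      rw [hne, dt_swap a' b, h0] at e
      simp at e
      rcases e with e | e
      · exact absurd e hD.ne'
      · exact e
    have := hab'.ha
    rw [ha', h.zero] at this
    exact zero_ne_one this
  · exact Qf_eq_of_dt_ne h hE hab hab' hne y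

theorem Qf_eq_norm (h : IsNm N) {D : ℝ} (hE : Ext N D) {a b : E2} (hab : AR N a b) (y : E2) :
    Qf a b y = 4 * D ^ 2 * N y ^ 2 := by
  by_cases hy : y = 0
  · subst hy
    simp [Qf, dt, h.zero]
  · have hNy := h.pos y hy
    set z := (N y)⁻¹ • y with hz
    have hNz : N z = 1 := by
      rw [hz, h.smul, abs_of_pos (inv_pos.mpr hNy)]
      exact inv_mul_cancel₀ hNy.ne'
    obtain ⟨w, hw⟩ := exists_AR h hNz
    have h1 := Qf_const h hE hab hw z
    have h2 : Qf z w z = 4 * D ^ 2 := by
      have := hE.area z w hw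
      have e : dt z ((2:ℝ) • w - z) = 2 * dt z w := by simp [dt]; ring
      have e' : dt z z = 0 := by simp [dt]; ring
      simp only [Qf]
      rw [e, e', this]; ring
    have h3 : y = N y • z := by
      rw [hz, smul_smul, mul_inv_cancel₀ hNy.ne', one_smul]
    have h4 : Qf a b y = N y ^ 2 * Qf a b z := by
      conv_lhs => rw [h3]
      simp [Qf, dt]; ring
    rw [h4, ← h1, h2]; ring

theorem solve_two' {S A B : ℝ} {x u w : E2} (hS : S ≠ 0) (e : S • x = A • u + B • w) :
    x = (A / S) • u + (B / S) • w := by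
  have h1 : x = (1 / S) • (S • x) := by
    rw [smul_smul, one_div, inv_mul_cancel₀ hS, one_smul]
  rw [h1, e]
  match_scalars <;> field_simp

/-- the linear map attached to a hexagon -/
noncomputable def Lmap (p q : E2) : E2 →ₗ[ℝ] E2 where
  toFun x := x 0 • p + x 1 • q
  map_add' x y := by simp [add_smul]; abel
  map_smul' c x := by simp [smul_smul]

theorem Lmap_apply (p q x : E2) : Lmap p q x = x 0 • p + x 1 • q := rfl

/-- the unit ball of `N` is a linear image of the closed unit disc -/
theorem ball_eq (h : IsNm N) {D : ℝ} (hE : Ext N D) {a b : E2} (hab : AR N a b) :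
    {y : E2 | N y ≤ 1} = Lmap a ((√3)⁻¹ • ((2:ℝ) • b - a)) '' Metric.closedBall 0 1 := by
  have hD := hE.pos
  have hDab := hE.area a b hab
  have h3 : (0:ℝ) < √3 := by positivity
  have h33 : √3 ^ 2 = 3 := Real.sq_sqrt (by norm_num)
  set g := (2:ℝ) • b - a with hg
  have hag : dt a g = 2 * D := by
    rw [← hDab, hg]; simp [dt]; ring
  have hQ : ∀ x : E2, Qf a b (Lmap a ((√3)⁻¹ • g) x) = 4 * D ^ 2 * (x 0 ^ 2 + x 1 ^ 2) := by
    intro x
    simp only [Qf]
    rw [← hg]
    have e1 : dt (Lmap a ((√3)⁻¹ • g) x) g = x 0 * (2 * D) := by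
      rw [← hag, Lmap_apply]; simp [dt]; ring
    have e2 : dt a (Lmap a ((√3)⁻¹ • g) x) = x 1 * (√3)⁻¹ * (2 * D) := by
      rw [← hag, Lmap_apply]; simp [dt]; ring
    rw [e1, e2]
    have : (√3)⁻¹ ^ 2 = 1 / 3 := by rw [inv_pow, h33]; norm_num
    calc (x 0 * (2 * D)) ^ 2 + 3 * (x 1 * (√3)⁻¹ * (2 * D)) ^ 2
        = 4 * D ^ 2 * (x 0 ^ 2 + 3 * (√3)⁻¹ ^ 2 * x 1 ^ 2) := by ring
      _ = _ := by rw [this]; ring
  have hball : ∀ x : E2, x ∈ Metric.closedBall (0 : E2) 1 ↔ x 0 ^ 2 + x 1 ^ 2 ≤ 1 := by
    intro x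
    rw [Metric.mem_closedBall, dist_zero_right]
    have hx : ‖x‖ ^ 2 = x 0 ^ 2 + x 1 ^ 2 := by
      rw [EuclideanSpace.norm_sq_eq]; simp [Fin.sum_univ_two]
    rw [← hx]
    constructor
    · intro hh
      have := norm_nonneg x
      nlinarith
    · intro hh
      have := norm_nonneg x
      by_contra hc
      push Not at hc
      nlinarith
  have hN : ∀ y, N y ≤ 1 ↔ Qf a b y ≤ 4 * D ^ 2 := by
    intro y
    rw [Qf_eq_norm h hE hab y]
    have h0 := h.nonneg y
    constructor
    · intro hh
      have : N y ^ 2 ≤ 1 := by nlinarith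
      nlinarith [sq_nonneg D]
    · intro hh
      by_contra hc
      push Not at hc
      have h1 : 1 < N y ^ 2 := by nlinarith
      have h2 : 0 < D ^ 2 := by positivity
      nlinarith
  ext y
  simp only [Set.mem_setOf_eq, Set.mem_image]
  constructor
  · intro hy
    rw [hN] at hy
    have hsurj : ∃ x : E2, Lmap a ((√3)⁻¹ • g) x = y := by
      refine ⟨!₂[dt y g / (2 * D), √3 * (dt a y / (2 * D))], ?_⟩
      rw [Lmap_apply]
      have e : (2 * D) • y = dt y g • a + dt a y • g := by
        rw [← hag]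
        ext i
        fin_cases i <;> simp [dt] <;> ring
      have hD0 : (2 * D) ≠ 0 := by positivity
      have e2 : y = (dt y g / (2 * D)) • a + (dt a y / (2 * D)) • g := by
        exact solve_two' hD0 e
      conv_rhs => rw [e2]
      rw [smul_smul]
      have e3 : (!₂[dt y g / (2 * D), √3 * (dt a y / (2 * D))] : E2) 0 = dt y g / (2 * D) := by
        simp
      have e4 : (!₂[dt y g / (2 * D), √3 * (dt a y / (2 * D))] : E2) 1
        = √3 * (dt a y / (2 * D)) := by simp
      rw [e3, e4]
      congr 2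
      field_simp
    obtain ⟨x, hx⟩ := hsurj
    refine ⟨x, ?_, hx⟩
    rw [hball]
    rw [← hx, hQ] at hy
    have h2 : 0 < 4 * D ^ 2 := by positivity
    have : 4 * D ^ 2 * (x 0 ^ 2 + x 1 ^ 2) ≤ 4 * D ^ 2 * 1 := by linarith
    exact le_of_mul_le_mul_left this h2
  · rintro ⟨x, hx, rfl⟩
    rw [hball] at hx
    rw [hN, hQ]
    have h2 : 0 < 4 * D ^ 2 := by positivity
    nlinarith

/-- derivation of the extremality hypothesis -/
theorem ext_of_hex (h : IsNm N) {a b : E2} (hab : AR N a b)
    (hM : ∀ a b : E2, AR N a b → ∀ a' x c' : E2, N a' ≤ 1 → N x ≤ 1 → N c' ≤ 1 →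
      0 < dt a' x → 0 < dt x c' → 0 < dt a' c' →
      dt a' x + dt x c' + dt a' c' ≤ 3 * dt a b) : Ext N (dt a b) := by
  have hle : ∀ a b a' b' : E2, AR N a b → AR N a' b' → dt a' b' ≤ dt a b := by
    intro a b a' b' hab hab'
    have hd := hab'.hd
    have e1 : dt b' (b' - a') = dt a' b' := by simp [dt]; ring
    have e2 : dt a' (b' - a') = dt a' b' := by simp [dt]; ring
    have := hM a b hab a' b' (b' - a') hab'.ha.le hab'.hb.le hab'.hc.le hd
      (by rw [e1]; exact hd) (by rw [e2]; exact hd)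
    rw [e1, e2] at this
    linarith
  refine ⟨hab.hd, fun a' b' hab' => le_antisymm (hle _ _ _ _ hab hab') (hle _ _ _ _ hab' hab), ?_⟩
  intro a' b' hab' x hx
  have hD' : dt a' b' = dt a b := le_antisymm (hle _ _ _ _ hab hab') (hle _ _ _ _ hab' hab)
  rw [← hD']
  have hd := hab'.hd
  set D := dt a' b' with hD
  set c := b' - a' with hc
  have hac : dt a' c = D := by rw [hD, hc]; simp [dt]; ring
  have hD0 : D ≠ 0 := hd.ne'
  set x2 := dt a' x / D with hx2
  set x1 := dt x c / D with hx1
  have e2 : dt a' x = x2 * D := by rw [hx2]; field_simp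
  have e1 : dt x c = x1 * D := by rw [hx1]; field_simp
  have ex : x = x1 • a' + x2 • c := by
    have e : D • x = dt x c • a' + dt a' x • c := by
      rw [← hac]
      ext i
      fin_cases i <;> simp [dt] <;> ring
    have : x = D⁻¹ • (D • x) := by
      rw [smul_smul, inv_mul_cancel₀ hD0, one_smul]
    rw [this, e, smul_add, smul_smul, smul_smul, hx1, hx2, div_eq_inv_mul, div_eq_inv_mul]
  have hgoal : dt ((2:ℝ) • a' - b') x = (x1 + x2) * D := by
    have : dt ((2:ℝ) • a' - b') x = dt a' x + dt x c := by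
      rw [hc]; simp [dt]; ring
    rw [this, e1, e2]; ring
  rw [hgoal]
  rcases le_or_gt x1 0 with h1 | h1
  · have : |x2| ≤ 1 + |x1| := by
      have e : x2 • c = x + (-x1) • a' := by
        conv_rhs => rw [ex]
        rw [neg_smul]; abel
      have := h.add_le x ((-x1) • a')
      rw [← e, h.smul, h.smul, hab'.hc, hab'.ha, abs_neg] at this
      linarith
    rw [abs_of_nonpos h1] at this
    have := le_abs_self x2
    have h12 : x1 + x2 ≤ 1 := by linarith
    nlinarith
  · rcases le_or_gt x2 0 with h2 | h2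
    · have : |x1| ≤ 1 + |x2| := by
        have e : x1 • a' = x + (-x2) • c := by
          conv_rhs => rw [ex]
          rw [neg_smul]; abel
        have := h.add_le x ((-x2) • c)
        rw [← e, h.smul, h.smul, hab'.hc, hab'.ha, abs_neg] at this
        linarith
      rw [abs_of_nonpos h2] at this
      have := le_abs_self x1
      have h12 : x1 + x2 ≤ 1 := by linarith
      nlinarith
    · have := hM a' b' hab' a' x c hab'.ha.le hx hab'.hc.le
        (by rw [e2]; positivity) (by rw [e1]; positivity) (by rw [hac]; exact hd)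
      rw [e1, e2, hac] at this
      linarith

end Pool.Agent.Helper359
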