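import Mathlib
import Pool.Agent.Helper359.Geo
import Pool.Agent.Helper359.Rigid
import Pool.Agent.Helper359.Ellipse

set_option autoImplicit false

namespace Pool.Agent.Helper359

open Filter Topology MeasureTheory Set
open scoped ENNReal

theorem det_Lmap (p q : E2) : LinearMap.det (Lmap p q) = dt p q := by
  rw [← LinearMap.det_toMatrix (EuclideanSpace.basisFun (Fin 2) ℝ).toBasis, Matrix.det_fin_two]
  simp [LinearMap.toMatrix_apply, Lmap_apply, dt]
  ring

theorem vol_Lmap (p q : E2) (s : Set E2) :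
    volume (Lmap p q '' s) = ENNReal.ofReal |dt p q| * volume s := by
  rw [Measure.addHaar_image_linearMap, det_Lmap]

theorem vol_sq : volume {x : E2 | (0 ≤ x 0 ∧ x 0 < 1) ∧ 0 ≤ x 1 ∧ x 1 < 1} = 1 := by
  have h := (PiLp.volume_preserving_ofLp (Fin 2)).measure_preimage
    (s := Set.univ.pi fun _ : Fin 2 => Set.Ico (0:ℝ) 1)
    (MeasurableSet.univ_pi fun _ => measurableSet_Ico).nullMeasurableSet
  rw [Real.volume_pi_Ico] at h
  simp at h
  rw [← h]
  congr 1
  ext x
  simp [Set.mem_pi, Fin.forall_fin_two]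

/-- lattice point -/
noncomputable def pt (p q : E2) (v : ℤ × ℤ) : E2 := (v.1 : ℝ) • p + (v.2 : ℝ) • q

/-- cell of the lattice -/
def cell (p q : E2) (v : ℤ × ℤ) : Set E2 :=
  {x | ⌊dt x q / dt p q⌋ = v.1 ∧ ⌊dt p x / dt p q⌋ = v.2}

theorem cell_meas (p q : E2) (v : ℤ × ℤ) : MeasurableSet (cell p q v) := by
  unfold cell
  have h1 : Measurable fun x : E2 => ⌊dt x q / dt p q⌋ := by
    apply Int.measurable_floor.comp
    apply Continuous.measurable
    unfold dt
    fun_prop
  have h2 : Measurable fun x : E2 => ⌊dt p x / dt p q⌋ := by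
    apply Int.measurable_floor.comp
    apply Continuous.measurable
    unfold dt
    fun_prop
  exact (h1 (measurableSet_singleton v.1)).inter (h2 (measurableSet_singleton v.2))

theorem coords {p q : E2} (hD : dt p q ≠ 0) (x : E2) :
    x = (dt x q / dt p q) • p + (dt p x / dt p q) • q := by
  apply solve_two' hD
  ext i
  fin_cases i <;> simp [dt] <;> ring

theorem cell_zero {p q : E2} (hD : dt p q ≠ 0) :
    cell p q (0, 0) = Lmap p q '' {x : E2 | (0 ≤ x 0 ∧ x 0 < 1) ∧ 0 ≤ x 1 ∧ x 1 < 1} := by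
  ext x
  simp only [cell, Set.mem_setOf_eq, Set.mem_image, Int.floor_eq_iff]
  constructor
  · rintro ⟨⟨h1, h2⟩, h3, h4⟩
    refine ⟨!₂[dt x q / dt p q, dt p x / dt p q], ?_, ?_⟩
    · simp at h1 h2 h3 h4 ⊢
      exact ⟨⟨h1, h2⟩, h3, h4⟩
    · rw [Lmap_apply]
      simp
      exact (coords hD x).symm
  · rintro ⟨y, ⟨⟨h1, h2⟩, h3, h4⟩, rfl⟩
    have e1 : dt (Lmap p q y) q / dt p q = y 0 := by
      rw [div_eq_iff hD, Lmap_apply]; simp [dt]; ring
    have e2 : dt p (Lmap p q y) / dt p q = y 1 := by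
      rw [div_eq_iff hD, Lmap_apply]; simp [dt]; ring
    rw [e1, e2]
    simp
    exact ⟨⟨h1, h2⟩, h3, h4⟩

theorem cell_vol {p q : E2} (hD : dt p q ≠ 0) (v : ℤ × ℤ) :
    volume (cell p q v) = ENNReal.ofReal |dt p q| := by
  have h0 : volume (cell p q (0, 0)) = ENNReal.ofReal |dt p q| := by
    rw [cell_zero hD, vol_Lmap, vol_sq, mul_one]
  rw [← h0, ← measure_preimage_add volume (-(pt p q v)) (cell p q (0, 0))]
  congr 1
  ext x
  simp only [cell, Set.mem_setOf_eq, Set.mem_preimage]
  have e1 : dt (-(pt p q v) + x) q / dt p q = dt x q / dt p q - (v.1 : ℝ) := by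
    field_simp
    simp [dt, pt]; ring
  have e2 : dt p (-(pt p q v) + x) / dt p q = dt p x / dt p q - (v.2 : ℝ) := by
    field_simp
    simp [dt, pt]; ring
  rw [e1, e2, Int.floor_sub_intCast, Int.floor_sub_intCast, sub_eq_zero, sub_eq_zero]

theorem cell_disj (p q : E2) : Pairwise (Function.onFun Disjoint (cell p q)) := by
  intro v w hvw
  rw [Function.onFun, Set.disjoint_left]
  rintro x ⟨h1, h2⟩ ⟨h3, h4⟩
  apply hvw
  ext
  · rw [← h1, ← h3]
  · rw [← h2, ← h4]

/-- distance from a point of a cell to the lattice point of the cell -/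
theorem cell_dist {p q : E2} (hD : dt p q ≠ 0) {v : ℤ × ℤ} {x : E2} (hx : x ∈ cell p q v) :
    ‖x - pt p q v‖ ≤ ‖p‖ + ‖q‖ := by
  obtain ⟨h1, h2⟩ := hx
  have e : x - pt p q v = (Int.fract (dt x q / dt p q)) • p
      + (Int.fract (dt p x / dt p q)) • q := by
    conv_lhs => rw [coords hD x]
    rw [pt, ← h1, ← h2, Int.fract, Int.fract]
    module
  rw [e]
  refine (norm_add_le _ _).trans ?_
  rw [norm_smul, norm_smul]
  have f1 : ‖Int.fract (dt x q / dt p q)‖ ≤ 1 := by
    rw [Real.norm_eq_abs, abs_of_nonneg (Int.fract_nonneg _)]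
    exact (Int.fract_lt_one _).le
  have f2 : ‖Int.fract (dt p x / dt p q)‖ ≤ 1 := by
    rw [Real.norm_eq_abs, abs_of_nonneg (Int.fract_nonneg _)]
    exact (Int.fract_lt_one _).le
  have := mul_le_mul_of_nonneg_right f1 (norm_nonneg p)
  have := mul_le_mul_of_nonneg_right f2 (norm_nonneg q)
  linarith

theorem count_lower {p q : E2} (hD : dt p q ≠ 0) (R : ℝ) :
    volume (Metric.closedBall (0 : E2) (R - (‖p‖ + ‖q‖)))
      ≤ ∑' _ : {v : ℤ × ℤ // ‖pt p q v‖ ≤ R}, ENNReal.ofReal |dt p q| := by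
  have hsub : Metric.closedBall (0 : E2) (R - (‖p‖ + ‖q‖))
      ⊆ ⋃ v : {v : ℤ × ℤ // ‖pt p q v‖ ≤ R}, cell p q v := by
    intro x hx
    rw [Metric.mem_closedBall, dist_zero_right] at hx
    rw [Set.mem_iUnion]
    have hmem : x ∈ cell p q (⌊dt x q / dt p q⌋, ⌊dt p x / dt p q⌋) := ⟨rfl, rfl⟩
    have hd := cell_dist hD hmem
    refine ⟨⟨_, ?_⟩, hmem⟩
    have := norm_sub_le x (x - pt p q (⌊dt x q / dt p q⌋, ⌊dt p x / dt p q⌋))
    rw [sub_sub_cancel] at this
    linarith
  calc volume (Metric.closedBall (0 : E2) (R - (‖p‖ + ‖q‖)))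
      ≤ volume (⋃ v : {v : ℤ × ℤ // ‖pt p q v‖ ≤ R}, cell p q v) := measure_mono hsub
    _ ≤ ∑' v : {v : ℤ × ℤ // ‖pt p q v‖ ≤ R}, volume (cell p q v) := measure_iUnion_le _
    _ = _ := by simp only [cell_vol hD]

theorem count_upper {p q : E2} (hD : dt p q ≠ 0) (R : ℝ) :
    ∑' _ : {v : ℤ × ℤ // ‖pt p q v‖ ≤ R}, ENNReal.ofReal |dt p q|
      ≤ volume (Metric.closedBall (0 : E2) (R + (‖p‖ + ‖q‖))) := by
  have h1 : ∑' _ : {v : ℤ × ℤ // ‖pt p q v‖ ≤ R}, ENNReal.ofReal |dt p q|
      = ∑' v : {v : ℤ × ℤ // ‖pt p q v‖ ≤ R}, volume (cell p q v) := by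
    simp only [cell_vol hD]
  rw [h1, ← measure_iUnion]
  · apply measure_mono
    intro x hx
    rw [Set.mem_iUnion] at hx
    obtain ⟨v, hv⟩ := hx
    have hd := cell_dist hD hv
    rw [Metric.mem_closedBall, dist_zero_right]
    have := norm_add_le (x - pt p q v) (pt p q v)
    rw [sub_add_cancel] at this
    have := v.2
    linarith
  · intro v w hvw
    exact cell_disj p q (fun h => hvw (Subtype.ext h))
  · intro v
    exact cell_meas _ _ _

theorem tendsto_ball (s : ℝ) :
    Tendsto (fun r : ℝ => volume (Metric.closedBall (0 : E2) (r + s))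
      / volume (Metric.closedBall (0 : E2) r)) atTop (𝓝 1) := by
  have hlim : Tendsto (fun r : ℝ => ENNReal.ofReal ((1 + s * r⁻¹) ^ 2)) atTop (𝓝 1) := by
    have h1 : Tendsto (fun r : ℝ => (1 + s * r⁻¹) ^ 2) atTop (𝓝 ((1 + s * 0) ^ 2)) :=
      ((tendsto_const_nhds.add (tendsto_const_nhds.mul tendsto_inv_atTop_zero)).pow 2)
    have h2 := (ENNReal.continuous_ofReal.tendsto ((1 + s * 0) ^ 2)).comp h1
    have e : ENNReal.ofReal ((1 + s * 0) ^ 2) = 1 := by simp
    rw [e] at h2
    exact h2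
  refine hlim.congr' ?_
  filter_upwards [eventually_gt_atTop (|s|), eventually_gt_atTop 0] with r hr hr0
  have hrs : 0 < r + s := by
    have := neg_abs_le s
    linarith
  rw [EuclideanSpace.volume_closedBall_fin_two, EuclideanSpace.volume_closedBall_fin_two]
  rw [ENNReal.mul_div_mul_right _ _ (by simp [Real.pi_pos]) ENNReal.ofReal_ne_top]
  rw [← ENNReal.ofReal_pow hrs.le, ← ENNReal.ofReal_pow hr0.le,
    ← ENNReal.ofReal_div_of_pos (by positivity)]
  congr 1
  field_simp

/-- density ratio, counting the members contained in the disc -/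
noncomputable def ratioIn (𝒜 : Set (Set E2)) (r : ℝ) : ℝ≥0∞ :=
  (∑' A : {A : Set E2 // A ∈ 𝒜 ∧ A ⊆ Metric.closedBall 0 r}, volume (A : Set E2))
    / volume (Metric.closedBall (0 : E2) r)

/-- density ratio, counting the parts of the members in the disc -/
noncomputable def ratioCap (𝒜 : Set (Set E2)) (r : ℝ) : ℝ≥0∞ :=
  (∑' A : {A : Set E2 // A ∈ 𝒜}, volume ((A : Set E2) ∩ Metric.closedBall 0 r))
    / volume (Metric.closedBall (0 : E2) r)

theorem ratioIn_le_ratioCap (𝒜 : Set (Set E2)) (r : ℝ) : ratioIn 𝒜 r ≤ ratioCap 𝒜 r := by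
  unfold ratioIn ratioCap
  gcongr
  let f : {A : Set E2 // A ∈ 𝒜 ∧ A ⊆ Metric.closedBall 0 r} → {A : Set E2 // A ∈ 𝒜} :=
    fun A => ⟨A.1, A.2.1⟩
  have hf : Function.Injective f := by
    intro A B h
    apply Subtype.ext
    exact congrArg (fun x : {A : Set E2 // A ∈ 𝒜} => (x : Set E2)) h
  refine le_trans (le_of_eq ?_) (ENNReal.tsum_comp_le_tsum_of_injective hf
    (fun A : {A : Set E2 // A ∈ 𝒜} => volume ((A : Set E2) ∩ Metric.closedBall 0 r)))
  apply tsum_congr
  intro A
  simp only [f]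
  rw [Set.inter_eq_left.mpr A.2.2]

/-- lattice arrangement of translates of `C` -/
def latt (C : Set E2) (p q : E2) : Set (Set E2) :=
  Set.range fun v : ℤ × ℤ => (fun x => pt p q v + x) '' C

theorem vol_translate (C : Set E2) (t : E2) : volume ((fun x => t + x) '' C) = volume C := by
  have := measure_preimage_add volume (-t) C
  rw [← this]
  congr 1
  ext x
  simp only [Set.mem_image, Set.mem_preimage]
  constructor
  · rintro ⟨y, hy, rfl⟩
    simpa using hy
  · intro h
    exact ⟨-t + x, h, by simp⟩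

theorem ratioIn_lower {C : Set E2} {c : ℝ} (hC : C ⊆ Metric.closedBall 0 c) {p q : E2}
    (hD : dt p q ≠ 0) (hinj : Function.Injective fun v : ℤ × ℤ => (fun x => pt p q v + x) '' C)
    (r : ℝ) :
    volume (Metric.closedBall (0 : E2) (r + (- (c + (‖p‖ + ‖q‖)))))
      / volume (Metric.closedBall (0 : E2) r) * (volume C / ENNReal.ofReal |dt p q|)
      ≤ ratioIn (latt C p q) r := by
  have hD' : ENNReal.ofReal |dt p q| ≠ 0 := by
    simp [hD]
  unfold ratioIn
  rw [← ENNReal.mul_div_right_comm]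
  gcongr
  have h1 := count_lower hD (r - c)
  have e1 : r - c - (‖p‖ + ‖q‖) = r + (- (c + (‖p‖ + ‖q‖))) := by ring
  rw [e1] at h1
  calc volume (Metric.closedBall (0 : E2) (r + (- (c + (‖p‖ + ‖q‖)))))
      * (volume C / ENNReal.ofReal |dt p q|)
      ≤ (∑' _ : {v : ℤ × ℤ // ‖pt p q v‖ ≤ r - c}, ENNReal.ofReal |dt p q|)
        * (volume C / ENNReal.ofReal |dt p q|) := by gcongr
    _ = ∑' _ : {v : ℤ × ℤ // ‖pt p q v‖ ≤ r - c}, volume C := by
        rw [← ENNReal.tsum_mul_right]
        apply tsum_congr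
        intro v
        exact ENNReal.mul_div_cancel hD' ENNReal.ofReal_ne_top
    _ ≤ _ := by
        let f : {v : ℤ × ℤ // ‖pt p q v‖ ≤ r - c} →
            {A : Set E2 // A ∈ latt C p q ∧ A ⊆ Metric.closedBall 0 r} :=
          fun v => ⟨(fun x => pt p q v.1 + x) '' C, ⟨⟨v.1, rfl⟩, by
            rintro _ ⟨x, hx, rfl⟩
            have := hC hx
            rw [Metric.mem_closedBall, dist_zero_right] at this ⊢
            have h2 := norm_add_le (pt p q v.1) x
            have := v.2
            linarith⟩⟩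
        have hf : Function.Injective f := by
          intro v w h
          apply Subtype.ext
          apply hinj
          exact congrArg (fun x : {A : Set E2 // A ∈ latt C p q ∧ A ⊆ Metric.closedBall 0 r}
            => (x : Set E2)) h
        refine le_trans (le_of_eq ?_) (ENNReal.tsum_comp_le_tsum_of_injective hf _)
        apply tsum_congr
        intro v
        simp only [f]
        rw [vol_translate]

theorem ratioCap_upper {C : Set E2} {c : ℝ} (hC : C ⊆ Metric.closedBall 0 c) {p q : E2}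
    (hD : dt p q ≠ 0) (r : ℝ) :
    ratioCap (latt C p q) r ≤ volume (Metric.closedBall (0 : E2) (r + (c + (‖p‖ + ‖q‖))))
      / volume (Metric.closedBall (0 : E2) r) * (volume C / ENNReal.ofReal |dt p q|) := by
  have hD' : ENNReal.ofReal |dt p q| ≠ 0 := by
    simp [hD]
  unfold ratioCap
  rw [← ENNReal.mul_div_right_comm]
  gcongr
  have h1 := count_upper hD (r + c)
  have e1 : r + c + (‖p‖ + ‖q‖) = r + (c + (‖p‖ + ‖q‖)) := by ring
  rw [e1] at h1
  calc ∑' A : {A : Set E2 // A ∈ latt C p q}, volume ((A : Set E2) ∩ Metric.closedBall 0 r)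
      ≤ ∑' v : ℤ × ℤ, volume (((fun x => pt p q v + x) '' C) ∩ Metric.closedBall 0 r) := by
        let f : ℤ × ℤ → {A : Set E2 // A ∈ latt C p q} :=
          fun v => ⟨(fun x => pt p q v + x) '' C, ⟨v, rfl⟩⟩
        have hf : Function.Surjective f := by
          rintro ⟨A, v, hv⟩
          exact ⟨v, Subtype.ext hv⟩
        exact ENNReal.tsum_le_tsum_comp_of_surjective hf
          (fun A : {A : Set E2 // A ∈ latt C p q} => volume ((A : Set E2) ∩ Metric.closedBall 0 r))
    _ = ∑' v : {v : ℤ × ℤ // ‖pt p q v‖ ≤ r + c},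
          volume (((fun x => pt p q v + x) '' C) ∩ Metric.closedBall 0 r) := by
        symm
        apply tsum_subtype_eq_of_support_subset (s := {v : ℤ × ℤ | ‖pt p q v‖ ≤ r + c})
          (f := fun v : ℤ × ℤ => volume (((fun x => pt p q v + x) '' C) ∩ Metric.closedBall 0 r))
        intro v hv
        rw [Function.mem_support] at hv
        have hne := nonempty_of_measure_ne_zero hv
        obtain ⟨y, ⟨x, hx, rfl⟩, hy⟩ := hne
        have h2 := hC hx
        rw [Metric.mem_closedBall, dist_zero_right] at h2 hy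
        have h3 := norm_sub_le (pt p q v + x) x
        rw [add_sub_cancel_right] at h3
        simp only [Set.mem_setOf_eq]
        linarith
    _ ≤ ∑' _ : {v : ℤ × ℤ // ‖pt p q v‖ ≤ r + c}, volume C := by
        apply ENNReal.tsum_le_tsum
        intro v
        rw [← vol_translate C (pt p q v)]
        exact measure_mono Set.inter_subset_left
    _ = (∑' _ : {v : ℤ × ℤ // ‖pt p q v‖ ≤ r + c}, ENNReal.ofReal |dt p q|)
        * (volume C / ENNReal.ofReal |dt p q|) := by
        rw [← ENNReal.tsum_mul_right]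
        apply tsum_congr
        intro v
        exact (ENNReal.mul_div_cancel hD' ENNReal.ofReal_ne_top).symm
    _ ≤ _ := by gcongr

theorem tendsto_aux (s : ℝ) {k : ℝ≥0∞} (hk : k ≠ ∞) :
    Tendsto (fun r : ℝ => volume (Metric.closedBall (0 : E2) (r + s))
      / volume (Metric.closedBall (0 : E2) r) * k) atTop (𝓝 k) := by
  have := ENNReal.Tendsto.mul_const (tendsto_ball s) (b := k) (Or.inr hk)
  simpa using this

theorem limsup_lower {C : Set E2} {c : ℝ} (hC : C ⊆ Metric.closedBall 0 c) {p q : E2}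
    (hD : dt p q ≠ 0) (hinj : Function.Injective fun v : ℤ × ℤ => (fun x => pt p q v + x) '' C) :
    volume C / ENNReal.ofReal |dt p q| ≤ limsup (ratioIn (latt C p q)) atTop := by
  have hk : volume C / ENNReal.ofReal |dt p q| ≠ ∞ := by
    apply (ENNReal.div_lt_top _ _).ne
    · have := measure_mono (μ := volume) hC
      exact (this.trans_lt (by
        rw [EuclideanSpace.volume_closedBall_fin_two]
        exact ENNReal.mul_lt_top (ENNReal.pow_lt_top ENNReal.ofReal_lt_top)
          ENNReal.ofReal_lt_top)).ne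
    · simp [hD]
  have ht := tendsto_aux (-(c + (‖p‖ + ‖q‖))) hk
  rw [← ht.limsup_eq]
  exact limsup_le_limsup (Eventually.of_forall fun r => ratioIn_lower hC hD hinj r)

theorem liminf_upper {C : Set E2} {c : ℝ} (hC : C ⊆ Metric.closedBall 0 c) {p q : E2}
    (hD : dt p q ≠ 0) :
    liminf (ratioCap (latt C p q)) atTop ≤ volume C / ENNReal.ofReal |dt p q| := by
  have hk : volume C / ENNReal.ofReal |dt p q| ≠ ∞ := by
    apply (ENNReal.div_lt_top _ _).ne
    · have := measure_mono (μ := volume) hC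
      exact (this.trans_lt (by
        rw [EuclideanSpace.volume_closedBall_fin_two]
        exact ENNReal.mul_lt_top (ENNReal.pow_lt_top ENNReal.ofReal_lt_top)
          ENNReal.ofReal_lt_top)).ne
    · simp [hD]
  have ht := tendsto_aux (c + (‖p‖ + ‖q‖)) hk
  rw [← ht.liminf_eq]
  exact liminf_le_liminf (Eventually.of_forall fun r => ratioCap_upper hC hD r)

end Pool.Agent.Helper359
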