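import Mathlib
import Pool.Agent.Helper359.Geo
import Pool.Agent.Helper359.Cover
import Pool.Agent.Helper359.Rigid
import Pool.Agent.Helper359.Ellipse
import Pool.Agent.Helper359.Density

set_option autoImplicit false

namespace Pool.Agent.Helper359

open Filter Topology MeasureTheory Set
open scoped ENNReal

variable {N : E2 → ℝ}

theorem exists_unit (h : IsNm N) : ∃ a, N a = 1 := by
  let e : E2 := !₂[1, 0]
  have he : e ≠ 0 := by
    intro h0
    have := congrArg (fun x : E2 => x 0) h0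
    simp [e] at this
  have := h.pos e he
  refine ⟨(N e)⁻¹ • e, ?_⟩
  rw [h.smul, abs_of_pos (inv_pos.mpr this)]
  exact inv_mul_cancel₀ this.ne'

theorem core (h : IsNm N) (hv0 : volume {y : E2 | N y ≤ 1} ≠ 0)
    (hv1 : volume {y : E2 | N y ≤ 1} ≠ ∞) {δ θ : ℝ≥0∞}
    (hδ : ∀ a b, AR N a b → volume {y : E2 | N y ≤ 1} / ENNReal.ofReal (4 * dt a b) ≤ δ)
    (hθ : ∀ a' x c', N a' ≤ 1 → N x ≤ 1 → N c' ≤ 1 → 0 < dt a' x → 0 < dt x c' → 0 < dt a' c' →
      θ ≤ volume {y : E2 | N y ≤ 1} / ENNReal.ofReal (dt a' x + dt x c' + dt a' c'))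
    (heq : θ = ENNReal.ofReal (4 / 3) * δ) :
    δ = ENNReal.ofReal (Real.pi / (2 * √3)) ∧ θ = ENNReal.ofReal (2 * Real.pi / (3 * √3)) ∧
      ∃ p q : E2, dt p q ≠ 0 ∧ {y : E2 | N y ≤ 1} = Lmap p q '' Metric.closedBall 0 1 := by
  set K := {y : E2 | N y ≤ 1} with hK
  set V := (volume K).toReal with hV
  have hVpos : 0 < V := ENNReal.toReal_pos hv0 hv1
  have hvol : volume K = ENNReal.ofReal V := (ENNReal.ofReal_toReal hv1).symm
  have hM : ∀ a b : E2, AR N a b → ∀ a' x c' : E2, N a' ≤ 1 → N x ≤ 1 → N c' ≤ 1 →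
      0 < dt a' x → 0 < dt x c' → 0 < dt a' c' →
      dt a' x + dt x c' + dt a' c' ≤ 3 * dt a b := by
    intro a b hab a' x c' h1 h2 h3 h4 h5 h6
    have hd := hab.hd
    have k1 := hδ a b hab
    have k2 := hθ a' x c' h1 h2 h3 h4 h5 h6
    rw [heq] at k2
    have k3 : ENNReal.ofReal (4 / 3) * (volume K / ENNReal.ofReal (4 * dt a b))
        ≤ volume K / ENNReal.ofReal (dt a' x + dt x c' + dt a' c') :=
      le_trans (by gcongr) k2
    set S := dt a' x + dt x c' + dt a' c' with hS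
    have hSpos : 0 < S := by positivity
    rw [hvol, ← ENNReal.ofReal_div_of_pos (by positivity), ← ENNReal.ofReal_div_of_pos hSpos,
      ← ENNReal.ofReal_mul (by norm_num), ENNReal.ofReal_le_ofReal_iff (by positivity)] at k3
    have e : 4 / 3 * (V / (4 * dt a b)) = V / (3 * dt a b) := by field_simp
    rw [e, div_le_div_iff₀ (by positivity) hSpos] at k3
    exact le_of_mul_le_mul_left k3 hVpos
  obtain ⟨a, ha⟩ := exists_unit h
  obtain ⟨b, hab⟩ := exists_AR h ha
  have hE := ext_of_hex h hab hM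
  set D := dt a b with hD
  have hDpos : 0 < D := hab.hd
  have hball := ball_eq h hE hab
  have h3 : (0:ℝ) < √3 := by positivity
  have h33 : √3 ^ 2 = 3 := Real.sq_sqrt (by norm_num)
  have hdt : dt a ((√3)⁻¹ • ((2:ℝ) • b - a)) = 2 * D / √3 := by
    rw [hD]; simp [dt]; field_simp; ring
  have hVval : V = 2 * D / √3 * Real.pi := by
    have : volume K = ENNReal.ofReal (2 * D / √3 * Real.pi) := by
      rw [hK, hball, vol_Lmap, hdt, EuclideanSpace.volume_closedBall_fin_two,
        abs_of_pos (by positivity), ENNReal.ofReal_one, one_pow, one_mul,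
        ← ENNReal.ofReal_mul (by positivity)]
    rw [hV, this, ENNReal.toReal_ofReal (by positivity)]
  have hpi := Real.pi_pos
  have d1 : ENNReal.ofReal (Real.pi / (2 * √3)) ≤ δ := by
    have := hδ a b hab
    rw [hvol, ← ENNReal.ofReal_div_of_pos (by positivity)] at this
    have e : V / (4 * dt a b) = Real.pi / (2 * √3) := by
      rw [hVval, ← hD]; field_simp; ring
    rwa [e] at this
  have e1 : dt b (b - a) = D := by rw [hD]; simp [dt]; ring
  have e2 : dt a (b - a) = D := by rw [hD]; simp [dt]; ring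
  have t1 : θ ≤ ENNReal.ofReal (2 * Real.pi / (3 * √3)) := by
    have := hθ a b (b - a) hab.ha.le hab.hb.le hab.hc.le hab.hd (by rw [e1]; exact hDpos)
      (by rw [e2]; exact hDpos)
    rw [e1, e2, hvol, ← ENNReal.ofReal_div_of_pos (by positivity)] at this
    have e : V / (dt a b + D + D) = 2 * Real.pi / (3 * √3) := by
      rw [hVval, ← hD]; field_simp; ring
    rwa [e] at this
  have t2 : ENNReal.ofReal (2 * Real.pi / (3 * √3)) ≤ θ := by
    rw [heq]
    refine le_trans (le_of_eq ?_) (mul_le_mul_right d1 (ENNReal.ofReal (4 / 3)))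
    rw [← ENNReal.ofReal_mul (by norm_num)]
    congr 1
    field_simp
    ring
  have t3 := le_antisymm t1 t2
  refine ⟨?_, t3, a, (√3)⁻¹ • ((2:ℝ) • b - a), ?_, hball⟩
  · have : ENNReal.ofReal (3 / 4) * θ = δ := by
      rw [heq, ← mul_assoc, ← ENNReal.ofReal_mul (by norm_num)]
      norm_num
    rw [← this, t3, ← ENNReal.ofReal_mul (by norm_num)]
    congr 1
    field_simp
    ring
  · rw [hdt]; positivity

/-- the gauge of a symmetric convex body -/
theorem isNm_gauge {K : Set E2} (hc : IsCompact K) (hconv : Convex ℝ K)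
    (hsymm : ∀ x ∈ K, -x ∈ K) (h0 : K ∈ 𝓝 (0 : E2)) : IsNm (gauge K) := by
  have habs : Absorbent ℝ K := absorbent_nhds_zero h0
  refine ⟨gauge_add_le hconv habs, ?_, ?_, continuous_gauge hconv h0⟩
  · intro c x
    rcases le_total 0 c with hc | hc
    · rw [gauge_smul_of_nonneg hc, abs_of_nonneg hc]; rfl
    · have : c • x = -((-c) • x) := by simp
      rw [this, gauge_neg hsymm, gauge_smul_of_nonneg (by linarith), abs_of_nonpos hc]; rfl
  · intro x hx
    have hb : Bornology.IsVonNBounded ℝ K :=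
      (NormedSpace.isVonNBounded_iff ℝ).mpr hc.isBounded
    exact (gauge_pos habs hb).mpr hx

theorem eq_gauge {K : Set E2} (hc : IsCompact K) (hconv : Convex ℝ K)
    (h0 : K ∈ 𝓝 (0 : E2)) : {y : E2 | gauge K y ≤ 1} = K := by
  ext y
  rw [Set.mem_setOf_eq, gauge_le_one_iff_mem_closure hconv h0, hc.isClosed.closure_eq]

theorem nhds_zero_of_interior {K : Set E2} (hconv : Convex ℝ K)
    (hsymm : ∀ x ∈ K, -x ∈ K) (hne : (interior K).Nonempty) : K ∈ 𝓝 (0 : E2) := by
  obtain ⟨z, hz⟩ := hne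
  have hz' : -z ∈ K := hsymm z (interior_subset hz)
  have : (0 : E2) ∈ interior K := by
    have := hconv.combo_interior_self_mem_interior hz hz' (by norm_num : (0:ℝ) < 1/2)
      (by norm_num : (0:ℝ) ≤ 1/2) (by norm_num)
    simpa using this
  exact mem_interior_iff_mem_nhds.mp this

theorem translate_interior (K : Set E2) (t : E2) :
    interior ((fun x => t + x) '' K) = (fun x => t + x) '' interior K :=
  ((Homeomorph.addLeft t).image_interior K).symm

/-- the double lattice `2a, 2b` packs -/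
theorem packs {K : Set E2} (hc : IsCompact K) (hconv : Convex ℝ K)
    (hsymm : ∀ x ∈ K, -x ∈ K) (h0 : K ∈ 𝓝 (0 : E2)) {a b : E2} (hab : AR (gauge K) a b)
    {v w : ℤ × ℤ} (hvw : v ≠ w) :
    Disjoint (interior ((fun x => pt ((2:ℝ) • a) ((2:ℝ) • b) v + x) '' K))
      (interior ((fun x => pt ((2:ℝ) • a) ((2:ℝ) • b) w + x) '' K)) := by
  have h := isNm_gauge hc hconv hsymm h0
  rw [translate_interior, translate_interior, Set.disjoint_left]
  rintro _ ⟨x, hx, rfl⟩ ⟨y, hy, hxy⟩
  rw [← gauge_lt_one_iff_mem_interior hconv h0] at hx hy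
  have hne : (v.1 - w.1, v.2 - w.2) ≠ (0, 0) := by
    intro hh
    apply hvw
    rw [Prod.mk.injEq] at hh
    ext <;> omega
  have key := hab.lattice h hne
  have e : y - x = (2:ℝ) • (((v.1 - w.1 : ℤ) : ℝ) • a + ((v.2 - w.2 : ℤ) : ℝ) • b) := by
    simp only [pt] at hxy
    have : y - x = ((v.1 : ℝ) • (2:ℝ) • a + (v.2 : ℝ) • (2:ℝ) • b + x)
        - ((w.1 : ℝ) • (2:ℝ) • a + (w.2 : ℝ) • (2:ℝ) • b + y) + y - x := by
      rw [← hxy]; abel
    rw [this]
    push_cast
    module
  have h2 : gauge K (y - x) ≤ gauge K y + gauge K x := by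
    have := h.add_le y (-x)
    rw [h.neg] at this
    rwa [sub_eq_add_neg]
  rw [e, h.smul] at h2
  norm_num at h2
  push_cast at key
  linarith

theorem covers {K : Set E2} (hconv : Convex ℝ K) (hsymm : ∀ x ∈ K, -x ∈ K)
    {a x c : E2} (haK : a ∈ K) (hxK : x ∈ K) (hcK : c ∈ K)
    (h1 : 0 < dt a x) (h2 : 0 < dt x c) (h3 : 0 < dt a c) :
    ⋃₀ latt K (a + x) (x + c) = Set.univ := by
  rw [Set.eq_univ_iff_forall]
  intro y
  obtain ⟨m, n, hmn⟩ := cover hconv hsymm haK hxK hcK h1 h2 h3 y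
  refine ⟨_, ⟨(m, n), rfl⟩, ?_⟩
  refine ⟨_, hmn, ?_⟩
  simp only [pt]
  abel

end Pool.Agent.Helper359
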