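import Mathlib

set_option autoImplicit false

namespace Pool.Agent.Helper359.NI

open Set Filter Topology

/-- numerical radius of an operator -/
noncomputable def numRadius (𝕜 : Type) [RCLike 𝕜] {X : Type} [NormedAddCommGroup X]
    [NormedSpace 𝕜 X] (T : X →L[𝕜] X) : ℝ :=
  sSup {r : ℝ | ∃ (x : X) (f : X →L[𝕜] 𝕜), ‖x‖ = 1 ∧ ‖f‖ = 1 ∧ f x = 1 ∧ r = ‖f (T x)‖}

/-- numerical index of a Banach space -/
noncomputable def numIndex (𝕜 : Type) [RCLike 𝕜] (X : Type) [NormedAddCommGroup X]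
    [NormedSpace 𝕜 X] : ℝ :=
  sInf {r : ℝ | ∃ T : X →L[𝕜] X, ‖T‖ = 1 ∧ r = numRadius 𝕜 T}

/-- `RenormableIndexOne 𝕜 X`: the space `X` is linearly homeomorphic to a normed space of
numerical index one, that is, some equivalent norm on `X` has numerical index one. -/
def RenormableIndexOne (𝕜 : Type) [RCLike 𝕜] (X : Type) [NormedAddCommGroup X]
    [NormedSpace 𝕜 X] : Prop :=
  ∃ (E : Type) (_ : NormedAddCommGroup E) (_ : NormedSpace 𝕜 E),
    Nonempty (X ≃L[𝕜] E) ∧ numIndex 𝕜 E = 1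

variable {X : Type} [NormedAddCommGroup X] [NormedSpace ℝ X]

theorem numRadius_bdd (T : X →L[ℝ] X) :
    BddAbove {r : ℝ | ∃ (x : X) (f : X →L[ℝ] ℝ), ‖x‖ = 1 ∧ ‖f‖ = 1 ∧ f x = 1 ∧
      r = ‖f (T x)‖} := by
  refine ⟨‖T‖, ?_⟩
  rintro r ⟨x, f, hx, hf, -, rfl⟩
  calc ‖f (T x)‖ ≤ ‖f‖ * ‖T x‖ := f.le_opNorm _
    _ ≤ ‖f‖ * (‖T‖ * ‖x‖) := by gcongr; exact T.le_opNorm _
    _ = ‖T‖ := by rw [hf, hx]; ring

theorem numRadius_le (T : X →L[ℝ] X) (hT : ‖T‖ = 1) : numRadius ℝ T ≤ 1 := by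
  apply Real.sSup_le _ zero_le_one
  rintro r ⟨x, f, hx, hf, -, rfl⟩
  calc ‖f (T x)‖ ≤ ‖f‖ * ‖T x‖ := f.le_opNorm _
    _ ≤ ‖f‖ * (‖T‖ * ‖x‖) := by gcongr; exact T.le_opNorm _
    _ = 1 := by rw [hf, hx, hT]; ring

theorem numRadius_nonneg (T : X →L[ℝ] X) : 0 ≤ numRadius ℝ T := by
  apply Real.sSup_nonneg
  rintro r ⟨x, f, hx, hf, -, rfl⟩
  exact norm_nonneg _

/-- index one: rank-one criterion -/
theorem index_one_radius (h : numIndex ℝ X = 1) (T : X →L[ℝ] X) (hT : ‖T‖ = 1) :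
    numRadius ℝ T = 1 := by
  apply le_antisymm (numRadius_le T hT)
  rw [← h]
  apply csInf_le
  · refine ⟨0, ?_⟩
    rintro r ⟨S, -, rfl⟩
    exact numRadius_nonneg S
  · exact ⟨T, hT, rfl⟩

theorem index_one_of (hne : ∃ T : X →L[ℝ] X, ‖T‖ = 1)
    (h : ∀ T : X →L[ℝ] X, ‖T‖ = 1 → ∀ δ > 0, ∃ (x : X) (f : X →L[ℝ] ℝ), ‖x‖ = 1 ∧ ‖f‖ = 1 ∧
      f x = 1 ∧ 1 - δ < ‖f (T x)‖) : numIndex ℝ X = 1 := by
  have h1 : ∀ T : X →L[ℝ] X, ‖T‖ = 1 → numRadius ℝ T = 1 := by
    intro T hT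
    apply le_antisymm (numRadius_le T hT)
    apply le_of_forall_pos_lt_add
    intro δ hδ
    obtain ⟨x, f, hx, hf, hfx, hlt⟩ := h T hT δ hδ
    have : ‖f (T x)‖ ≤ numRadius ℝ T := le_csSup (numRadius_bdd T) ⟨x, f, hx, hf, hfx, rfl⟩
    linarith
  obtain ⟨T, hT⟩ := hne
  have : {r : ℝ | ∃ T : X →L[ℝ] X, ‖T‖ = 1 ∧ r = numRadius ℝ T} = {1} := by
    ext r
    constructor
    · rintro ⟨S, hS, rfl⟩
      exact h1 S hS
    · rintro rfl
      exact ⟨T, hT, (h1 T hT).symm⟩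
  unfold numIndex
  rw [this, csInf_singleton]

/-- the space `ℓ₁` -/
abbrev L1 := lp (fun _ : ℕ => ℝ) 1

theorem norm_L1 (v : L1) : ‖v‖ = ∑' n, |v n| := by
  rw [lp.norm_eq_tsum_rpow (by simp) v]
  simp

theorem summable_L1 (v : L1) : Summable fun n => |v n| := by
  have := (lp.memℓp v).summable (by simp)
  simpa using this

theorem norm_add_single (v : L1) (n : ℕ) (σ : ℝ) (hσ : |v n + σ| = |v n| + 1) :
    ‖v + lp.single 1 n σ‖ = ‖v‖ + 1 := by
  rw [norm_L1, norm_L1]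
  have h1 := summable_L1 v
  have h2 := summable_L1 (v + lp.single 1 n σ)
  have h3 : ∑' k, (|(v + lp.single 1 n σ : L1) k| - |v k|) = 1 := by
    rw [tsum_eq_single n]
    · rw [lp.coeFn_add, Pi.add_apply, lp.single_apply_self, hσ]; ring
    · intro k hk
      rw [lp.coeFn_add, Pi.add_apply, lp.single_apply_ne _ _ _ hk, add_zero, sub_self]
  rw [h2.tsum_sub h1] at h3
  linarith

theorem exists_big (T : L1 →L[ℝ] L1) (hT : ‖T‖ = 1) {δ : ℝ} (hδ : 0 < δ) :
    ∃ n, 1 - δ < ‖T (lp.single 1 n 1)‖ := by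
  by_contra hcon
  push Not at hcon
  have h0 : 0 ≤ 1 - δ := (norm_nonneg _).trans (hcon 0)
  have : ‖T‖ ≤ 1 - δ := by
    apply T.opNorm_le_bound h0
    intro x
    have hs := lp.hasSum_single (p := 1) (by simp) x
    have hs2 := T.hasSum hs
    have hterm : ∀ n, ‖T (lp.single 1 n (x n))‖ ≤ (1 - δ) * |x n| := by
      intro n
      have : (lp.single 1 n (x n) : L1) = x n • lp.single 1 n 1 := by
        rw [← lp.single_smul]
        simp
      rw [this, map_smul, norm_smul, Real.norm_eq_abs, mul_comm]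
      gcongr
      exact hcon n
    have hsum : Summable fun n => (1 - δ) * |x n| := (summable_L1 x).mul_left _
    rw [← hs2.tsum_eq]
    refine (tsum_of_norm_bounded hsum.hasSum hterm).trans ?_
    rw [tsum_mul_left, norm_L1]
  linarith

theorem index_L1 : numIndex ℝ L1 = 1 := by
  apply index_one_of
  · refine ⟨ContinuousLinearMap.id ℝ L1, ?_⟩
    have : Nontrivial L1 := ⟨⟨lp.single 1 0 1, 0, by
      intro h
      have := congrArg (fun v : L1 => v 0) h
      simp at this⟩⟩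
    exact ContinuousLinearMap.norm_id
  · intro T hT δ hδ
    obtain ⟨n, hn⟩ := exists_big T hT hδ
    set v := T (lp.single 1 n 1) with hv
    obtain ⟨σ, hσ1, hσ2⟩ : ∃ σ : ℝ, |σ| = 1 ∧ |v n + σ| = |v n| + 1 := by
      rcases le_total 0 (v n) with h | h
      · exact ⟨1, by simp, by rw [abs_of_nonneg h, abs_of_nonneg (by linarith)]⟩
      · exact ⟨-1, by simp, by rw [abs_of_nonpos h, abs_of_nonpos (by linarith)]; ring⟩
    have hnorm := norm_add_single v n σ hσ2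
    have hne : v + lp.single 1 n σ ≠ 0 := by
      intro h0
      rw [h0, norm_zero] at hnorm
      have := norm_nonneg v
      linarith
    obtain ⟨f, hf, hfv⟩ := exists_dual_vector ℝ _ (norm_ne_zero_iff.mpr hne)
    rw [hnorm, map_add] at hfv
    have hs : (lp.single 1 n σ : L1) = σ • lp.single 1 n 1 := by
      rw [← lp.single_smul]; simp
    have hns : ‖(lp.single 1 n σ : L1)‖ = 1 := by
      rw [lp.norm_single (by simp), Real.norm_eq_abs, hσ1]
    have h1 : f v ≤ ‖v‖ := by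
      have := f.le_opNorm v
      rw [hf, one_mul] at this
      exact (le_abs_self _).trans this
    have h2 : f (lp.single 1 n σ) ≤ 1 := by
      have := f.le_opNorm (lp.single 1 n σ)
      rw [hf, one_mul, hns] at this
      exact (le_abs_self _).trans this
    simp only [RCLike.ofReal_real_eq_id, id] at hfv
    refine ⟨lp.single 1 n σ, f, hns, hf, by linarith, ?_⟩
    rw [hs, map_smul, map_smul, norm_smul, Real.norm_eq_abs, hσ1, one_mul, ← hv]
    have h3 : f v = ‖v‖ := by linarith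
    rw [h3, norm_norm]
    exact hn

end Pool.Agent.Helper359.NI
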