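import Mathlib
import Pool.Agent.Helper359.NIBase

set_option autoImplicit false

namespace Pool.Agent.Helper359.NI

open Set Filter Topology

/-- a Hilbert space of uncountable dimension -/
abbrev H2 := lp (fun _ : ℝ => ℝ) 2

/-- tail of the `ℓ₁` norm -/
noncomputable def tail (m : ℕ) (v : L1) : ℝ := ‖v‖ - ∑ n ∈ Finset.range m, |v n|

theorem tail_nonneg (m : ℕ) (v : L1) : 0 ≤ tail m v := by
  unfold tail
  rw [norm_L1, sub_nonneg]
  exact (summable_L1 v).sum_le_tsum _ (fun _ _ => abs_nonneg _)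

theorem tail_eq (m : ℕ) (v : L1) : tail m v = ∑' n, |v (n + m)| := by
  unfold tail
  rw [norm_L1, ← (summable_L1 v).sum_add_tsum_nat_add m]
  ring

theorem tail_small (v : L1) {τ : ℝ} (hτ : 0 < τ) : ∃ m, tail m v < τ := by
  have h := (summable_L1 v).hasSum.tendsto_sum_nat
  rw [← norm_L1] at h
  have h2 : Tendsto (fun m => tail m v) atTop (𝓝 0) := by
    have := (tendsto_const_nhds (x := ‖v‖)).sub h
    simpa [tail] using this
  exact (h2.eventually (gt_mem_nhds hτ)).exists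

theorem tail_sub (m : ℕ) (v w : L1) : tail m (v - w) ≤ tail m v + tail m w := by
  rw [tail_eq, tail_eq, tail_eq]
  have h1 : Summable fun n => |v (n + m)| := (summable_nat_add_iff m).2 (summable_L1 v)
  have h2 : Summable fun n => |w (n + m)| := (summable_nat_add_iff m).2 (summable_L1 w)
  have h3 : Summable fun n => |(v - w : L1) (n + m)| :=
    (summable_nat_add_iff m).2 (summable_L1 (v - w))
  rw [← h1.tsum_add h2]
  refine h3.tsum_le_tsum ?_ (h1.add h2)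
  intro n
  rw [lp.coeFn_sub, Pi.sub_apply]
  exact abs_sub _ _

theorem L1_norm_sub_le (m : ℕ) (v w : L1) :
    ‖v - w‖ ≤ (∑ n ∈ Finset.range m, |v n - w n|) + tail m v + tail m w := by
  have h := tail_sub m v w
  have h2 : tail m (v - w) = ‖v - w‖ - ∑ n ∈ Finset.range m, |v n - w n| := by
    unfold tail
    simp
  linarith

/-- coordinate functional on `ℓ₁` -/
noncomputable def coord (n : ℕ) : L1 →L[ℝ] ℝ := lp.evalCLM ℝ (fun _ : ℕ => ℝ) 1 n

theorem coord_apply (n : ℕ) (v : L1) : coord n v = v n := rfl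

/-- finite combination of coordinates -/
noncomputable def comb (m : ℕ) (c : ℕ → ℝ) : L1 →L[ℝ] ℝ := ∑ n ∈ Finset.range m, c n • coord n

theorem comb_apply (m : ℕ) (c : ℕ → ℝ) (v : L1) :
    comb m c v = ∑ n ∈ Finset.range m, c n * v n := by
  simp [comb, coord_apply]

theorem sum_abs_le (m : ℕ) (v : L1) : ∑ n ∈ Finset.range m, |v n| ≤ ‖v‖ := by
  have := tail_nonneg m v
  unfold tail at this
  linarith

theorem comb_norm_le (m : ℕ) (c : ℕ → ℝ) {C : ℝ} (hC : 0 ≤ C) (hc : ∀ n, |c n| ≤ C) :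
    ‖comb m c‖ ≤ C := by
  apply ContinuousLinearMap.opNorm_le_bound _ hC
  intro v
  rw [comb_apply, Real.norm_eq_abs]
  calc |∑ n ∈ Finset.range m, c n * v n| ≤ ∑ n ∈ Finset.range m, |c n * v n| :=
        Finset.abs_sum_le_sum_abs _ _
    _ ≤ ∑ n ∈ Finset.range m, C * |v n| := by
        apply Finset.sum_le_sum
        intro n _
        rw [abs_mul]
        gcongr
        exact hc n
    _ = C * ∑ n ∈ Finset.range m, |v n| := by rw [Finset.mul_sum]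
    _ ≤ C * ‖v‖ := by gcongr; exact sum_abs_le m v

variable (H : Type) [NormedAddCommGroup H] [InnerProductSpace ℝ H]

/-- stage one -/
theorem stage_one (B : Set (L1 × H)) {R : ℝ} (hR : 0 < R) (hB : ∀ y ∈ B, ‖y‖ ≤ R)
    (hne : B.Nonempty) (f : (L1 × H) →L[ℝ] ℝ) {η δ : ℝ} (hη : 0 < η) (hδ : 0 < δ) :
    ∃ (g : (L1 × H) →L[ℝ] ℝ) (m : ℕ) (y₀ : L1 × H) (κ : ℝ), y₀ ∈ B ∧ 0 < κ ∧ ‖g - f‖ ≤ η ∧
      ∀ y ∈ B, g y₀ - κ < g y → tail m y.1 < δ ∧ ‖y.2 - y₀.2‖ ^ 2 < δ := by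
  set θ : ℝ := η / (1 + 2 * R) with hθ
  have hθ0 : 0 < θ := by positivity
  set τ : ℝ := θ * δ / (2 + θ) with hτ
  have hτ0 : 0 < τ := by positivity
  have hτe : (2 + θ) * τ = θ * δ := by rw [hτ]; field_simp
  set q : L1 × H → ℝ := fun y => f y + θ * ‖y.1‖ + θ * ‖y.2‖ ^ 2 with hq
  have hbd : BddAbove (q '' B) := by
    refine ⟨‖f‖ * R + θ * R + θ * R ^ 2, ?_⟩
    rintro _ ⟨y, hy, rfl⟩
    have h1 : f y ≤ ‖f‖ * R := (le_abs_self _).trans ((f.le_opNorm y).trans (by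
      gcongr; exact hB y hy))
    have h2 : ‖y.1‖ ≤ R := (norm_fst_le y).trans (hB y hy)
    have h3 : ‖y.2‖ ≤ R := (norm_snd_le y).trans (hB y hy)
    simp only [hq]
    gcongr
  have hneq : (q '' B).Nonempty := hne.image q
  obtain ⟨_, ⟨y₀, hy₀, rfl⟩, hlt⟩ := exists_lt_of_lt_csSup hneq (sub_lt_self (sSup (q '' B)) hτ0)
  obtain ⟨m, hm⟩ := tail_small y₀.1 hτ0
  set s : ℕ → ℝ := fun n => SignType.sign (y₀.1 n) with hs
  have hs1 : ∀ n, |s n| ≤ 1 := by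
    intro n
    simp only [hs]
    rcases lt_trichotomy (y₀.1 n) 0 with h | h | h
    · simp [sign_neg h]
    · simp [h]
    · simp [sign_pos h]
  have hs2 : ∀ n, s n * y₀.1 n = |y₀.1 n| := by
    intro n
    simp only [hs]
    exact sign_mul_self _
  set ℓ : (L1 × H) →L[ℝ] ℝ := (comb m s).comp (ContinuousLinearMap.fst ℝ L1 H) +
    (2 : ℝ) • (innerSL ℝ y₀.2).comp (ContinuousLinearMap.snd ℝ L1 H) with hℓ
  have hℓa : ∀ y, ℓ y = (∑ n ∈ Finset.range m, s n * y.1 n) + 2 * inner ℝ y₀.2 y.2 := by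
    intro y
    simp [hℓ, comb_apply]
  have hℓn : ‖ℓ‖ ≤ 1 + 2 * R := by
    apply ContinuousLinearMap.opNorm_le_bound _ (by positivity)
    intro y
    have e1 : ‖comb m s y.1‖ ≤ 1 * ‖y‖ := ((comb m s).le_opNorm y.1).trans (by
      gcongr
      · exact comb_norm_le m s zero_le_one hs1
      · exact norm_fst_le y)
    have e2 : |inner ℝ y₀.2 y.2| ≤ R * ‖y‖ := (abs_real_inner_le_norm _ _).trans (by
      gcongr
      · exact (norm_snd_le y₀).trans (hB _ hy₀)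
      · exact norm_snd_le y)
    rw [hℓa, ← comb_apply, Real.norm_eq_abs]
    rw [Real.norm_eq_abs] at e1
    calc |comb m s y.1 + 2 * inner ℝ y₀.2 y.2| ≤ |comb m s y.1| + |2 * inner ℝ y₀.2 y.2| :=
          abs_add_le _ _
      _ = |comb m s y.1| + 2 * |inner ℝ y₀.2 y.2| := by rw [abs_mul]; norm_num
      _ ≤ 1 * ‖y‖ + 2 * (R * ‖y‖) := by gcongr
      _ = (1 + 2 * R) * ‖y‖ := by ring
  refine ⟨f + θ • ℓ, m, y₀, τ, hy₀, hτ0, ?_, ?_⟩
  · rw [add_sub_cancel_left]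
    have e0 := ContinuousLinearMap.opNorm_smul_le θ ℓ
    rw [Real.norm_eq_abs, abs_of_pos hθ0] at e0
    calc ‖θ • ℓ‖ ≤ θ * ‖ℓ‖ := e0
      _ ≤ θ * (1 + 2 * R) := by gcongr
      _ = η := by rw [hθ]; field_simp
  · intro y hy hgy
    have e1 : ∑ n ∈ Finset.range m, s n * y.1 n ≤ ‖y.1‖ - tail m y.1 := by
      unfold tail
      rw [sub_sub_cancel]
      apply Finset.sum_le_sum
      intro n _
      calc s n * y.1 n ≤ |s n * y.1 n| := le_abs_self _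
        _ = |s n| * |y.1 n| := abs_mul _ _
        _ ≤ 1 * |y.1 n| := by gcongr; exact hs1 n
        _ = |y.1 n| := one_mul _
    have e2 : 2 * inner ℝ y₀.2 y.2 = ‖y.2‖ ^ 2 + ‖y₀.2‖ ^ 2 - ‖y.2 - y₀.2‖ ^ 2 := by
      rw [norm_sub_sq_real, real_inner_comm]
      ring
    have e3 : ∑ n ∈ Finset.range m, s n * y₀.1 n = ‖y₀.1‖ - tail m y₀.1 := by
      unfold tail
      rw [sub_sub_cancel]
      exact Finset.sum_congr rfl fun n _ => hs2 n
    have e4 : 2 * inner ℝ y₀.2 y₀.2 = 2 * ‖y₀.2‖ ^ 2 := by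
      rw [real_inner_self_eq_norm_sq]
    have e5 : q y ≤ sSup (q '' B) := le_csSup hbd ⟨y, hy, rfl⟩
    simp only [_root_.add_apply, _root_.smul_apply, smul_eq_mul,
      hℓa] at hgy
    rw [e3, e4, e2] at hgy
    simp only [hq] at e5 hlt
    have key : θ * (tail m y.1 + ‖y.2 - y₀.2‖ ^ 2) < θ * δ := by
      rw [← hτe]
      nlinarith
    have key2 := lt_of_mul_lt_mul_left key hθ0.le
    have t1 := tail_nonneg m y.1
    have t2 := sq_nonneg ‖y.2 - y₀.2‖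
    exact ⟨by linarith, by linarith⟩

theorem sum_sq_le (m : ℕ) (v : L1) : ∑ n ∈ Finset.range m, v n ^ 2 ≤ ‖v‖ ^ 2 := by
  calc ∑ n ∈ Finset.range m, v n ^ 2 = ∑ n ∈ Finset.range m, |v n| ^ 2 := by simp
    _ ≤ (∑ n ∈ Finset.range m, |v n|) ^ 2 :=
        Finset.sum_sq_le_sq_sum_of_nonneg (fun _ _ => abs_nonneg _)
    _ ≤ ‖v‖ ^ 2 := by
        gcongr
        exact sum_abs_le m v

/-- slices of small diameter -/
theorem small_slice (B : Set (L1 × H)) {R : ℝ} (hR : 0 < R) (hB : ∀ y ∈ B, ‖y‖ ≤ R)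
    (hne : B.Nonempty) (f : (L1 × H) →L[ℝ] ℝ) {η ε : ℝ} (hη : 0 < η) (hε : 0 < ε) :
    ∃ (g : (L1 × H) →L[ℝ] ℝ) (y₁ : L1 × H) (κ : ℝ), y₁ ∈ B ∧ 0 < κ ∧ ‖g - f‖ ≤ η ∧
      ∀ y ∈ B, g y₁ - κ < g y → ‖y - y₁‖ ≤ ε := by
  set δ : ℝ := min (ε / 4) (ε ^ 2 / 4) with hδ
  have hδ0 : 0 < δ := by positivity
  have hδ1 : δ ≤ ε / 4 := min_le_left _ _
  have hδ2 : δ ≤ ε ^ 2 / 4 := min_le_right _ _
  obtain ⟨g₀, m, y₀, κ₀, hy₀, hκ₀, hg₀, hsl⟩ :=
    stage_one H B hR hB hne f (half_pos hη) hδ0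
  set θ : ℝ := min (κ₀ / (6 * R ^ 2)) (η / (4 * R)) with hθ
  have hθ0 : 0 < θ := by positivity
  have hθ1 : 3 * θ * R ^ 2 ≤ κ₀ / 2 := by
    have : θ ≤ κ₀ / (6 * R ^ 2) := min_le_left _ _
    rw [le_div_iff₀ (by positivity)] at this
    linarith
  have hθ2 : θ * (2 * R) ≤ η / 2 := by
    have : θ ≤ η / (4 * R) := min_le_right _ _
    rw [le_div_iff₀ (by positivity)] at this
    linarith
  set τ : ℝ := min (κ₀ / 4) (θ * (ε ^ 2 / (4 * (m + 1))) / 2) with hτ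
  have hτ0 : 0 < τ := by positivity
  have hτ1 : 2 * τ ≤ κ₀ / 2 := by
    have : τ ≤ κ₀ / 4 := min_le_left _ _
    linarith
  have hτ2 : 2 * τ ≤ θ * (ε ^ 2 / (4 * (m + 1))) := by
    have : τ ≤ θ * (ε ^ 2 / (4 * (m + 1))) / 2 := min_le_right _ _
    linarith
  set S : L1 × H → ℝ := fun y => ∑ n ∈ Finset.range m, y.1 n ^ 2 with hS
  have hS0 : ∀ y, 0 ≤ S y := fun y => Finset.sum_nonneg fun _ _ => sq_nonneg _
  have hS1 : ∀ y ∈ B, S y ≤ R ^ 2 := by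
    intro y hy
    refine (sum_sq_le m y.1).trans ?_
    gcongr
    exact (norm_fst_le y).trans (hB y hy)
  set q : L1 × H → ℝ := fun y => g₀ y + θ * S y with hq
  have hbd : BddAbove (q '' B) := by
    refine ⟨‖g₀‖ * R + θ * R ^ 2, ?_⟩
    rintro _ ⟨y, hy, rfl⟩
    have h1 : g₀ y ≤ ‖g₀‖ * R := (le_abs_self _).trans ((g₀.le_opNorm y).trans (by
      gcongr; exact hB y hy))
    have h2 := hS1 y hy
    simp only [hq]
    gcongr
  obtain ⟨_, ⟨y₁, hy₁, rfl⟩, hlt⟩ :=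
    exists_lt_of_lt_csSup (hne.image q) (sub_lt_self (sSup (q '' B)) hτ0)
  set c : ℕ → ℝ := fun n => if n < m then 2 * y₁.1 n else 0 with hc
  have hR1 : ‖y₁.1‖ ≤ R := (norm_fst_le y₁).trans (hB _ hy₁)
  have hcb : ∀ n, |c n| ≤ 2 * R := by
    intro n
    simp only [hc]
    split_ifs with h
    · rw [abs_mul, abs_two]
      have : |y₁.1 n| ≤ ‖y₁.1‖ := lp.norm_apply_le_norm (by simp) y₁.1 n
      linarith
    · simp; positivity
  set ℓ : (L1 × H) →L[ℝ] ℝ := (comb m c).comp (ContinuousLinearMap.fst ℝ L1 H) with hℓ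
  set D : L1 × H → ℝ := fun y => ∑ n ∈ Finset.range m, (y.1 n - y₁.1 n) ^ 2 with hD
  have hD0 : ∀ y, 0 ≤ D y := fun y => Finset.sum_nonneg fun _ _ => sq_nonneg _
  have hℓa : ∀ y, ℓ y = S y + S y₁ - D y := by
    intro y
    simp only [hℓ, ContinuousLinearMap.comp_apply, ContinuousLinearMap.coe_fst', comb_apply, hS, hD]
    rw [← Finset.sum_add_distrib, ← Finset.sum_sub_distrib]
    apply Finset.sum_congr rfl
    intro n hn
    simp only [hc, if_pos (Finset.mem_range.mp hn)]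
    ring
  have hD1 : D y₁ = 0 := by simp [hD]
  have hℓn : ‖ℓ‖ ≤ 2 * R := by
    apply ContinuousLinearMap.opNorm_le_bound _ (by positivity)
    intro y
    calc ‖ℓ y‖ = ‖comb m c y.1‖ := rfl
      _ ≤ ‖comb m c‖ * ‖y.1‖ := (comb m c).le_opNorm y.1
      _ ≤ 2 * R * ‖y‖ := by
        gcongr
        · exact comb_norm_le m c (by positivity) hcb
        · exact norm_fst_le y
  have hga : ∀ y, (g₀ + θ • ℓ) y = g₀ y + θ * (S y + S y₁ - D y) := by
    intro y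
    simp only [_root_.add_apply, _root_.smul_apply, smul_eq_mul, hℓa]
  have hy₁0 : g₀ y₀ - κ₀ < g₀ y₁ := by
    have e1 : q y₀ ≤ sSup (q '' B) := le_csSup hbd ⟨y₀, hy₀, rfl⟩
    simp only [hq] at e1 hlt
    have e2 : θ * S y₁ ≤ θ * R ^ 2 := by gcongr; exact hS1 _ hy₁
    have e3 : 0 ≤ θ * S y₀ := mul_nonneg hθ0.le (hS0 _)
    have e4 : 0 ≤ θ * R ^ 2 := by positivity
    linarith
  refine ⟨g₀ + θ • ℓ, y₁, τ, hy₁, hτ0, ?_, ?_⟩
  · have e0 := ContinuousLinearMap.opNorm_smul_le θ ℓ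
    rw [Real.norm_eq_abs, abs_of_pos hθ0] at e0
    have e1 : θ * ‖ℓ‖ ≤ θ * (2 * R) := by gcongr
    calc ‖g₀ + θ • ℓ - f‖ = ‖(g₀ - f) + θ • ℓ‖ := by congr 1; abel
      _ ≤ ‖g₀ - f‖ + ‖θ • ℓ‖ := ContinuousLinearMap.opNorm_add_le _ _
      _ ≤ η / 2 + η / 2 := by linarith
      _ = η := by ring
  · intro y hy hgy
    rw [hga, hga, hD1] at hgy
    have e1 : q y ≤ sSup (q '' B) := le_csSup hbd ⟨y, hy, rfl⟩
    have e0 : q y₀ ≤ sSup (q '' B) := le_csSup hbd ⟨y₀, hy₀, rfl⟩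
    simp only [hq] at e0 e1 hlt
    have d1 : θ * D y < 2 * τ := by nlinarith
    have d2 : D y < ε ^ 2 / (4 * (m + 1)) := lt_of_mul_lt_mul_left (d1.trans_le hτ2) hθ0.le
    have e2 : θ * S y₁ ≤ θ * R ^ 2 := by gcongr; exact hS1 _ hy₁
    have e2' : θ * S y ≤ θ * R ^ 2 := by gcongr; exact hS1 _ hy
    have e3 : 0 ≤ θ * S y₀ := mul_nonneg hθ0.le (hS0 _)
    have e3' : 0 ≤ θ * S y₁ := mul_nonneg hθ0.le (hS0 _)
    have e5 : 0 ≤ θ * D y := mul_nonneg hθ0.le (hD0 _)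
    have hy0 : g₀ y₀ - κ₀ < g₀ y := by nlinarith
    obtain ⟨a1, a2⟩ := hsl y hy hy0
    obtain ⟨b1, b2⟩ := hsl y₁ hy₁ hy₁0
    have s2 : ‖y.2 - y₁.2‖ ≤ ε := by
      have c1 : ‖y.2 - y₀.2‖ ≤ ε / 2 := by
        apply le_of_sq_le_sq _ (by positivity)
        linarith [show (ε / 2) ^ 2 = ε ^ 2 / 4 by ring]
      have c2 : ‖y₁.2 - y₀.2‖ ≤ ε / 2 := by
        apply le_of_sq_le_sq _ (by positivity)
        linarith [show (ε / 2) ^ 2 = ε ^ 2 / 4 by ring]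
      calc ‖y.2 - y₁.2‖ = ‖(y.2 - y₀.2) - (y₁.2 - y₀.2)‖ := by congr 1; abel
        _ ≤ ‖y.2 - y₀.2‖ + ‖y₁.2 - y₀.2‖ := norm_sub_le _ _
        _ ≤ ε := by linarith
    have s1 : ‖y.1 - y₁.1‖ ≤ ε := by
      have c0 := L1_norm_sub_le m y.1 y₁.1
      have c1 : ∑ n ∈ Finset.range m, |y.1 n - y₁.1 n| ≤ ε / 2 := by
        apply le_of_sq_le_sq _ (by positivity)
        have c2 := sq_sum_le_card_mul_sum_sq (s := Finset.range m)
          (f := fun n => |y.1 n - y₁.1 n|)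
        simp only [sq_abs, Finset.card_range] at c2
        have c3 : (m : ℝ) * D y ≤ (ε / 2) ^ 2 := by
          have hm : (0 : ℝ) ≤ m := Nat.cast_nonneg m
          calc (m : ℝ) * D y ≤ (m + 1) * (ε ^ 2 / (4 * (m + 1))) := by
                gcongr
                linarith
            _ = (ε / 2) ^ 2 := by field_simp; ring
        exact c2.trans c3
      linarith
    exact max_le s1 s2

end Pool.Agent.Helper359.NI
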