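import Mathlib
import Pool.Agent.Helper359.NISlice

set_option autoImplicit false

namespace Pool.Agent.Helper359.NI

open Set Filter Topology

variable {H : Type} [NormedAddCommGroup H] [InnerProductSpace ℝ H]
variable {E : Type} [NormedAddCommGroup E] [NormedSpace ℝ E]

theorem small_slice' (e : (L1 × H) ≃L[ℝ] E) (φ : E →L[ℝ] ℝ) {η ε : ℝ} (hη : 0 < η)
    (hε : 0 < ε) :
    ∃ (γ : E →L[ℝ] ℝ) (z₁ : E) (κ : ℝ), ‖z₁‖ ≤ 1 ∧ 0 < κ ∧ ‖γ - φ‖ ≤ η ∧
      ∀ z, ‖z‖ ≤ 1 → γ z₁ - κ < γ z → ‖z - z₁‖ ≤ ε := by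
  set p : E →L[ℝ] L1 × H := (e.symm : E →L[ℝ] L1 × H) with hp
  set c : (L1 × H) →L[ℝ] E := (e : (L1 × H) →L[ℝ] E) with hc
  have hcp : ∀ z, c (p z) = z := fun z => e.apply_symm_apply z
  have hpc : ∀ y, p (c y) = y := fun y => e.symm_apply_apply y
  obtain ⟨g, y₁, κ, hy₁, hκ, hg, hsl⟩ := small_slice H {y : L1 × H | ‖c y‖ ≤ 1}
    (R := ‖p‖ + 1) (by positivity) (by
      intro y hy
      have hy' : ‖c y‖ ≤ 1 := hy
      calc ‖y‖ = ‖p (c y)‖ := by rw [hpc]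
        _ ≤ ‖p‖ * ‖c y‖ := p.le_opNorm _
        _ ≤ ‖p‖ * 1 := by gcongr
        _ ≤ ‖p‖ + 1 := by linarith)
    ⟨0, by simp⟩ (φ.comp c) (η := η / (‖p‖ + 1)) (ε := ε / (‖c‖ + 1)) (by positivity)
    (by positivity)
  refine ⟨g.comp p, c y₁, κ, hy₁, hκ, ?_, ?_⟩
  · apply ContinuousLinearMap.opNorm_le_bound _ hη.le
    intro z
    have e1 : (g.comp p - φ) z = (g - φ.comp c) (p z) := by
      simp [hcp]
    rw [e1]
    calc ‖(g - φ.comp c) (p z)‖ ≤ ‖g - φ.comp c‖ * ‖p z‖ :=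
          (g - φ.comp c).le_opNorm _
      _ ≤ η / (‖p‖ + 1) * (‖p‖ * ‖z‖) := by
          gcongr
          exact p.le_opNorm _
      _ ≤ η / (‖p‖ + 1) * ((‖p‖ + 1) * ‖z‖) := by
          gcongr
          linarith
      _ = η * ‖z‖ := by field_simp
  · intro z hz hlt
    have h1 := hsl (p z) (by
      show ‖c (p z)‖ ≤ 1
      rwa [hcp]) (by simpa [hpc] using hlt)
    calc ‖z - c y₁‖ = ‖c (p z - y₁)‖ := by rw [map_sub, hcp]
      _ ≤ ‖c‖ * ‖p z - y₁‖ := c.le_opNorm _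
      _ ≤ (‖c‖ + 1) * (ε / (‖c‖ + 1)) := by
          gcongr
          linarith
      _ = ε := by field_simp

theorem radius_attained (h : numIndex ℝ E = 1) (T : E →L[ℝ] E) (hT : ‖T‖ = 1) {δ : ℝ}
    (hδ : 0 < δ) : ∃ (z : E) (f : E →L[ℝ] ℝ), ‖z‖ = 1 ∧ ‖f‖ = 1 ∧ f z = 1 ∧
      1 - δ < |f (T z)| := by
  by_contra hcon
  push Not at hcon
  have h1 := index_one_radius h T hT
  have h2 : numRadius ℝ T ≤ max (1 - δ) 0 := by
    apply Real.sSup_le _ (le_max_right _ _)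
    rintro r ⟨z, f, hz, hf, hfz, rfl⟩
    exact (hcon z f hz hf hfz).trans (le_max_left _ _)
  rw [h1] at h2
  rcases le_max_iff.mp h2 with h3 | h3 <;> linarith

/-- approximate spear points -/
def Spear (ε : ℝ) (y : E) : Prop :=
  ‖y‖ ≤ 1 ∧ ∀ x : E, x ≠ 0 → ∃ σ : ℝ, (σ = 1 ∨ σ = -1) ∧ 1 + (1 - ε) * ‖x‖ - ε ≤ ‖x + σ • y‖

theorem spear_of_slice (h : numIndex ℝ E = 1) (γ : E →L[ℝ] ℝ) (hγ : γ ≠ 0) (z₁ : E)
    (hz₁ : ‖z₁‖ ≤ 1) {κ ε : ℝ} (hκ : 0 < κ) (hε : 0 < ε)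
    (hsl : ∀ z, ‖z‖ ≤ 1 → γ z₁ - κ < γ z → ‖z - z₁‖ ≤ ε) (y : E) (hy : ‖y‖ ≤ 1)
    (hy2 : γ z₁ - κ < γ y) : Spear (2 * ε) y := by
  refine ⟨hy, fun x hx => ?_⟩
  have hγ0 : 0 < ‖γ‖ := norm_pos_iff.mpr hγ
  have hx0 : 0 < ‖x‖ := norm_pos_iff.mpr hx
  set δ : ℝ := min ε (κ / (2 * ‖γ‖)) with hδ
  have hδ0 : 0 < δ := by positivity
  have hδ1 : δ ≤ ε := min_le_left _ _
  have hδ2 : δ * ‖γ‖ < κ := by
    have : δ ≤ κ / (2 * ‖γ‖) := min_le_right _ _
    rw [le_div_iff₀ (by positivity)] at this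
    have h3 : 0 < δ * ‖γ‖ := by positivity
    linarith
  set T : E →L[ℝ] E := (‖γ‖ * ‖x‖)⁻¹ • γ.smulRight x with hT
  have hTn : ‖T‖ = 1 := by
    rw [hT, norm_smul, ContinuousLinearMap.norm_smulRight_apply, norm_inv, norm_mul, norm_norm,
      norm_norm]
    field_simp
  obtain ⟨z, f, hz, hf, hfz, hlt⟩ := radius_attained h T hTn hδ0
  have hTz : f (T z) = (‖γ‖ * ‖x‖)⁻¹ * (γ z * f x) := by
    simp [hT]
  rw [hTz, abs_mul, abs_inv, abs_mul, abs_norm, abs_norm, abs_mul] at hlt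
  have a1 : |γ z| ≤ ‖γ‖ := by
    have := γ.le_opNorm z
    rwa [hz, mul_one, Real.norm_eq_abs] at this
  have a2 : |f x| ≤ ‖x‖ := by
    have := f.le_opNorm x
    rwa [hf, one_mul, Real.norm_eq_abs] at this
  have hlt2 : (1 - δ) * (‖γ‖ * ‖x‖) < |γ z| * |f x| := by
    rw [inv_mul_eq_div, lt_div_iff₀ (by positivity)] at hlt
    exact hlt
  have b1 : (1 - δ) * ‖γ‖ < |γ z| := by
    have : |γ z| * |f x| ≤ |γ z| * ‖x‖ := by gcongr
    have h4 : ((1 - δ) * ‖γ‖) * ‖x‖ < |γ z| * ‖x‖ := by linarith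
    exact lt_of_mul_lt_mul_right h4 hx0.le
  have b2 : (1 - δ) * ‖x‖ < |f x| := by
    have : |γ z| * |f x| ≤ ‖γ‖ * |f x| := by gcongr
    have h4 : ‖γ‖ * ((1 - δ) * ‖x‖) < ‖γ‖ * |f x| := by linarith
    exact lt_of_mul_lt_mul_left h4 hγ0.le
  -- choose the sign of `z`
  obtain ⟨s, hs, hsz⟩ : ∃ s : ℝ, (s = 1 ∨ s = -1) ∧ s * γ z = |γ z| := by
    rcases le_total 0 (γ z) with h5 | h5
    · exact ⟨1, Or.inl rfl, by rw [abs_of_nonneg h5, one_mul]⟩
    · exact ⟨-1, Or.inr rfl, by rw [abs_of_nonpos h5]; ring⟩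
  obtain ⟨t, ht, htx⟩ : ∃ t : ℝ, (t = 1 ∨ t = -1) ∧ t * f x = |f x| := by
    rcases le_total 0 (f x) with h5 | h5
    · exact ⟨1, Or.inl rfl, by rw [abs_of_nonneg h5, one_mul]⟩
    · exact ⟨-1, Or.inr rfl, by rw [abs_of_nonpos h5]; ring⟩
  have hss : s * s = 1 := by rcases hs with rfl | rfl <;> norm_num
  have htt : t * t = 1 := by rcases ht with rfl | rfl <;> norm_num
  have hsa : |s| = 1 := by rcases hs with rfl | rfl <;> norm_num
  have hta : |t| = 1 := by rcases ht with rfl | rfl <;> norm_num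
  have hnz : ‖s • z‖ ≤ 1 := by rw [norm_smul, Real.norm_eq_abs, hsa, hz, one_mul]
  have c1 : ‖s • z - z₁‖ ≤ ε := by
    apply hsl _ hnz
    rw [map_smul, smul_eq_mul, hsz]
    have : γ z₁ ≤ ‖γ‖ := (le_abs_self _).trans ((γ.le_opNorm z₁).trans (by
      calc ‖γ‖ * ‖z₁‖ ≤ ‖γ‖ * 1 := by gcongr
        _ = ‖γ‖ := mul_one _))
    linarith
  have c2 : ‖y - z₁‖ ≤ ε := hsl y hy hy2
  -- the sign for `x + σ y`
  refine ⟨s * t, ?_, ?_⟩
  · rcases hs with rfl | rfl <;> rcases ht with rfl | rfl <;> simp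
  · have d1 : 1 + (1 - δ) * ‖x‖ ≤ ‖z + t • x‖ := by
      have : f (z + t • x) = 1 + |f x| := by
        rw [map_add, map_smul, smul_eq_mul, hfz, htx]
      have h6 : f (z + t • x) ≤ ‖z + t • x‖ := by
        have := f.le_opNorm (z + t • x)
        rw [hf, one_mul] at this
        exact (le_abs_self _).trans this
      linarith
    have d2 : x + (s * t) • y = t • (z + t • x) + (s * t) • ((y - z₁) - (s • z - z₁)) := by
      rw [smul_add, smul_smul, htt, one_smul, sub_sub_sub_cancel_right, smul_sub, smul_smul]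
      have : s * t * s = t := by
        calc s * t * s = (s * s) * t := by ring
          _ = t := by rw [hss, one_mul]
      rw [this]
      abel
    have d3 : ‖(s * t) • ((y - z₁) - (s • z - z₁))‖ ≤ 2 * ε := by
      rw [norm_smul, Real.norm_eq_abs, abs_mul, hsa, hta, one_mul, one_mul]
      exact (norm_sub_le _ _).trans (by linarith)
    have d4 : ‖t • (z + t • x)‖ = ‖z + t • x‖ := by
      rw [norm_smul, Real.norm_eq_abs, hta, one_mul]
    have d5 : ‖t • (z + t • x)‖ ≤ ‖x + (s * t) • y‖ +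
        ‖(s * t) • ((y - z₁) - (s • z - z₁))‖ := by
      have : t • (z + t • x) = (x + (s * t) • y) - (s * t) • ((y - z₁) - (s • z - z₁)) := by
        rw [d2]; abel
      rw [this]
      exact norm_sub_le _ _
    have d6 : (1 - 2 * ε) * ‖x‖ ≤ (1 - δ) * ‖x‖ := by
      gcongr
      linarith
    linarith

theorem exists_functional (E₀ : Submodule ℝ E) (h : E₀.topologicalClosure ≠ ⊤) :
    ∃ φ : E →L[ℝ] ℝ, ‖φ‖ = 1 ∧ ∀ u ∈ E₀, φ u = 0 := by
  obtain ⟨x, hx⟩ : ∃ x, x ∉ E₀.topologicalClosure := by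
    by_contra hcon
    push Not at hcon
    exact h (eq_top_iff.mpr fun x _ => hcon x)
  obtain ⟨f, u, hf, hfx⟩ := geometric_hahn_banach_closed_point
    (E₀.topologicalClosure.convex) E₀.isClosed_topologicalClosure hx
  have hz : ∀ a ∈ E₀, f a = 0 := by
    intro a ha
    by_contra hne
    have hmem : ∀ t : ℝ, t • a ∈ E₀.topologicalClosure := fun t =>
      E₀.le_topologicalClosure (E₀.smul_mem t ha)
    have h1 := hf _ (hmem ((u + 1) / f a))
    rw [map_smul, smul_eq_mul, div_mul_cancel₀ _ hne] at h1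
    linarith
  have hu : 0 < u := by
    have := hf 0 (Submodule.zero_mem _)
    simpa using this
  have hf0 : f ≠ 0 := by
    rintro rfl
    simp at hfx
    linarith
  have hfn : ‖f‖ ≠ 0 := norm_ne_zero_iff.mpr hf0
  refine ⟨‖f‖⁻¹ • f, ?_, ?_⟩
  · rw [norm_smul, norm_inv, norm_norm, inv_mul_cancel₀ hfn]
  · intro a ha
    simp [hz a ha]

theorem spear_far (h : numIndex ℝ E = 1) (e : (L1 × H) ≃L[ℝ] E) (E₀ : Submodule ℝ E)
    (hE : E₀.topologicalClosure ≠ ⊤) {ε : ℝ} (hε : 0 < ε) :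
    ∃ y : E, Spear ε y ∧ ∀ u ∈ E₀, 1 / 2 ≤ ‖y - u‖ := by
  obtain ⟨φ, hφ, hφ0⟩ := exists_functional E₀ hE
  obtain ⟨γ, z₁, κ, hz₁, hκ, hγφ, hsl⟩ := small_slice' e φ (η := 1 / 8) (by norm_num)
    (half_pos hε)
  have hγ1 : 7 / 8 ≤ ‖γ‖ := by
    have : ‖φ‖ ≤ ‖γ‖ + ‖γ - φ‖ := by
      have := norm_sub_le γ (γ - φ)
      rwa [sub_sub_cancel] at this
    linarith
  have hγ0 : γ ≠ 0 := by
    rw [← norm_pos_iff]
    linarith
  have hle : ∀ (ψ : E →L[ℝ] ℝ) (z : E), ‖z‖ ≤ 1 → |ψ z| ≤ ‖ψ‖ := by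
    intro ψ z hz
    calc |ψ z| ≤ ‖ψ‖ * ‖z‖ := ψ.le_opNorm z
      _ ≤ ‖ψ‖ * 1 := by gcongr
      _ = ‖ψ‖ := mul_one _
  have hlt : max (γ z₁ - κ) (‖γ‖ - 1 / 8) < ‖γ‖ := by
    apply max_lt
    · have := (le_abs_self _).trans (hle γ z₁ hz₁)
      linarith
    · linarith
  obtain ⟨y, hy, hyγ⟩ : ∃ y : E, ‖y‖ ≤ 1 ∧ max (γ z₁ - κ) (‖γ‖ - 1 / 8) < γ y := by
    obtain ⟨y, hy1, hy2⟩ := γ.exists_lt_apply_of_lt_opNorm hlt
    rw [Real.norm_eq_abs] at hy2
    rcases le_total 0 (γ y) with h5 | h5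
    · exact ⟨y, hy1.le, by rwa [abs_of_nonneg h5] at hy2⟩
    · refine ⟨-y, by rw [norm_neg]; exact hy1.le, ?_⟩
      rwa [abs_of_nonpos h5, ← map_neg] at hy2
  have hy1 := (le_max_left _ _).trans_lt hyγ
  have hy2 := (le_max_right _ _).trans_lt hyγ
  refine ⟨y, ?_, ?_⟩
  · have := spear_of_slice h γ hγ0 z₁ hz₁ hκ (half_pos hε) hsl y hy hy1
    rwa [mul_div_cancel₀ _ (two_ne_zero' ℝ)] at this
  · intro u hu
    have a1 : φ (y - u) ≤ ‖y - u‖ := by
      have := φ.le_opNorm (y - u)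
      rw [hφ, one_mul] at this
      exact (le_abs_self _).trans this
    rw [map_sub, hφ0 u hu, sub_zero] at a1
    have a2 : γ y - φ y ≤ 1 / 8 := by
      have := (le_abs_self _).trans (hle (γ - φ) y hy)
      simp only [_root_.sub_apply] at this
      linarith
    linarith

theorem countable_approx {α β : Type} [PseudoMetricSpace β] [SecondCountableTopology β]
    (π : α → β) : ∃ D : Set α, D.Countable ∧ ∀ a, ∀ τ : ℝ, 0 < τ → ∃ d ∈ D,
      dist (π a) (π d) < τ := by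
  let _ : PseudoMetricSpace α := PseudoMetricSpace.induced π inferInstance
  have : SecondCountableTopology α := TopologicalSpace.secondCountableTopology_induced _ _ _
  obtain ⟨D, hD, hdense⟩ := TopologicalSpace.exists_countable_dense α
  refine ⟨D, hD, fun a τ hτ => ?_⟩
  obtain ⟨d, hd, hlt⟩ := hdense.exists_dist_lt a hτ
  exact ⟨d, hd, hlt⟩

theorem L1_separable : TopologicalSpace.SeparableSpace L1 := by
  have hc : (Set.range fun n : ℕ => (lp.single 1 n 1 : L1)).Countable := Set.countable_range _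
  have hs := hc.isSeparable.span (R := ℝ)
  have hs2 := hs.closure
  rw [← TopologicalSpace.isSeparable_univ_iff]
  apply hs2.mono
  intro v _
  have hv := (lp.hasSum_single (p := 1) (by simp) v).tendsto_sum_nat
  refine mem_closure_of_tendsto hv (Eventually.of_forall fun n => ?_)
  apply Submodule.sum_mem
  intro i _
  have : (lp.single 1 i (v i) : L1) = v i • lp.single 1 i 1 := by
    rw [← lp.single_smul]
    simp
  rw [this]
  exact Submodule.smul_mem _ _ (Submodule.subset_span ⟨i, rfl⟩)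

theorem pair_of_spears (h : numIndex ℝ E = 1) (e : (L1 × H) ≃L[ℝ] E)
    (hns : ¬ TopologicalSpace.SeparableSpace H) (V : Submodule ℝ H) [FiniteDimensional ℝ V]
    {ε τ : ℝ} (hε : 0 < ε) (hτ : 0 < τ) :
    ∃ y y' : E, Spear ε y ∧ Spear ε y' ∧ 1 / 2 ≤ ‖y - y'‖ ∧ ‖(e.symm (y - y')).1‖ ≤ τ ∧
      ‖V.starProjection (e.symm (y - y')).2‖ ≤ τ := by
  have := L1_separable
  have : SecondCountableTopology L1 := UniformSpace.secondCountable_of_separable _
  have : ProperSpace V := FiniteDimensional.proper ℝ V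
  have : SecondCountableTopology V := secondCountable_of_proper
  let π : {y : E // Spear ε y} → L1 × V := fun y =>
    ((e.symm y.1).1, V.orthogonalProjectionOnto (e.symm y.1).2)
  obtain ⟨D, hD, happ⟩ := countable_approx π
  set E₀ : Submodule ℝ E := Submodule.span ℝ (Subtype.val '' D) with hE₀
  have hsep : TopologicalSpace.IsSeparable (E₀.topologicalClosure : Set E) := by
    have := ((hD.image Subtype.val).isSeparable.span (R := ℝ)).closure
    exact this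
  have hne : E₀.topologicalClosure ≠ ⊤ := by
    intro htop
    rw [htop, Submodule.top_coe, TopologicalSpace.isSeparable_univ_iff] at hsep
    apply hns
    have hcont : Continuous fun z : E => (e.symm z).2 := continuous_snd.comp e.symm.continuous
    have hsurj : Function.Surjective fun z : E => (e.symm z).2 := by
      intro x
      exact ⟨e (0, x), by simp⟩
    exact hsurj.denseRange.separableSpace hcont
  obtain ⟨y, hy, hfar⟩ := spear_far h e E₀ hne hε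
  obtain ⟨d, hd, hlt⟩ := happ ⟨y, hy⟩ τ hτ
  refine ⟨y, d.1, hy, d.2, hfar _ (Submodule.subset_span ⟨d, hd, rfl⟩), ?_, ?_⟩
  · have h1 : dist (e.symm y).1 (e.symm d.1).1 ≤ τ := (le_max_left _ _).trans hlt.le
    rw [map_sub, Prod.fst_sub, ← dist_eq_norm]
    exact h1
  · have h1 : dist (V.orthogonalProjectionOnto (e.symm y).2)
        (V.orthogonalProjectionOnto (e.symm d.1).2) ≤ τ := (le_max_right _ _).trans hlt.le
    rw [map_sub, Prod.snd_sub, map_sub, Submodule.starProjection_apply,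
      Submodule.starProjection_apply, ← dist_eq_norm]
    exact h1

end Pool.Agent.Helper359.NI
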