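import Mathlib
import Pool.Agent.Helper359.NISpear

set_option autoImplicit false

namespace Pool.Agent.Helper359.NI

open Set Filter Topology

variable {H : Type} [NormedAddCommGroup H] [InnerProductSpace ℝ H]
variable {E : Type} [NormedAddCommGroup E] [NormedSpace ℝ E]

theorem chain (h : numIndex ℝ E = 1) (e : (L1 × H) ≃L[ℝ] E)
    (hns : ¬ TopologicalSpace.SeparableSpace H) {ε τ : ℝ} (hε : 0 < ε) (hτ : 0 < τ) :
    ∃ s : ℕ → E × E × H, (∀ n, Spear ε (s n).1 ∧ Spear ε (s n).2.1 ∧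
      1 / 2 ≤ ‖(s n).1 - (s n).2.1‖ ∧
      ‖e.symm ((s n).1 - (s n).2.1) - ((0 : L1), (s n).2.2)‖ ≤ τ) ∧
      ∀ m n, m < n → inner ℝ (s m).2.2 (s n).2.2 = 0 := by
  classical
  apply exists_seq_of_forall_finset_exists (fun a : E × E × H => Spear ε a.1 ∧ Spear ε a.2.1 ∧
      1 / 2 ≤ ‖a.1 - a.2.1‖ ∧ ‖e.symm (a.1 - a.2.1) - ((0 : L1), a.2.2)‖ ≤ τ)
    (fun a b => inner ℝ a.2.2 b.2.2 = 0)
  intro s _
  set V : Submodule ℝ H := Submodule.span ℝ ((s.image fun a => a.2.2 : Finset H) : Set H) with hV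
  obtain ⟨y, y', h1, h2, h3, h4, h5⟩ := pair_of_spears h e hns V hε hτ
  refine ⟨(y, y', (e.symm (y - y')).2 - V.starProjection (e.symm (y - y')).2),
    ⟨h1, h2, h3, ?_⟩, ?_⟩
  · apply max_le
    · simpa using h4
    · simpa using h5
  · intro a ha
    have hmem : a.2.2 ∈ V := Submodule.subset_span (by
      simp only [Finset.coe_image, Set.mem_image, Finset.mem_coe]
      exact ⟨a, ha, rfl⟩)
    have := V.starProjection_inner_eq_zero (e.symm (y - y')).2 a.2.2 hmem
    rw [real_inner_comm]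
    exact this

theorem signs {ε : ℝ} (hε : 0 ≤ ε) (y : ℕ → E) (hy : ∀ n, Spear ε (y n)) (x : E)
    (hx : ‖x‖ = 1) (K : ℕ) (hK : ε * (K + 1) ^ 2 ≤ 1 / 2) :
    ∃ σ : ℕ → ℝ, (∀ n, σ n = 1 ∨ σ n = -1) ∧
      ((K : ℝ) + 1) - ε * (K + 1) ^ 2 ≤ ‖x + ∑ n ∈ Finset.range K, σ n • y n‖ := by
  induction K with
  | zero =>
    refine ⟨fun _ => 1, fun _ => Or.inl rfl, ?_⟩
    simp [hx]
    linarith
  | succ K ih =>
    have hmono : ε * ((K : ℝ) + 1) ^ 2 ≤ ε * (((K + 1 : ℕ) : ℝ) + 1) ^ 2 := by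
      push_cast
      gcongr
      linarith
    obtain ⟨σ, hσ, hlow⟩ := ih (hmono.trans hK)
    set z := x + ∑ n ∈ Finset.range K, σ n • y n with hz
    have hub : ‖z‖ ≤ K + 1 := by
      calc ‖z‖ ≤ ‖x‖ + ‖∑ n ∈ Finset.range K, σ n • y n‖ := norm_add_le _ _
        _ ≤ 1 + ∑ n ∈ Finset.range K, ‖σ n • y n‖ := by
            gcongr
            · exact hx.le
            · exact norm_sum_le _ _
        _ ≤ 1 + ∑ n ∈ Finset.range K, (1 : ℝ) := by
            gcongr with n hn
            rw [norm_smul, Real.norm_eq_abs]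
            have : |σ n| = 1 := by rcases hσ n with h | h <;> rw [h] <;> norm_num
            rw [this, one_mul]
            exact (hy n).1
        _ = K + 1 := by simp; ring
    have hK0 : (0 : ℝ) ≤ K := Nat.cast_nonneg K
    have hzpos : 0 < ‖z‖ := by
      have := hmono.trans hK
      linarith
    obtain ⟨t, ht, hlow2⟩ := (hy K).2 z (norm_pos_iff.mp hzpos)
    refine ⟨fun n => if n = K then t else σ n, ?_, ?_⟩
    · intro n
      dsimp only
      split_ifs
      · exact ht
      · exact hσ n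
    · have hsum : x + ∑ n ∈ Finset.range (K + 1), (if n = K then t else σ n) • y n =
          z + t • y K := by
        rw [Finset.sum_range_succ, if_pos rfl, hz, add_assoc]
        congr 2
        apply Finset.sum_congr rfl
        intro n hn
        rw [if_neg (Finset.mem_range.mp hn).ne]
      rw [hsum]
      have e1 : ε * ‖z‖ ≤ ε * (K + 1) := by gcongr
      have e2 : 0 ≤ ε * K := mul_nonneg hε hK0
      push_cast
      nlinarith

theorem norm_sq_sum (h : ℕ → H) (ho : ∀ m n, m < n → inner ℝ (h m) (h n) = 0) (c : ℕ → ℝ)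
    (F : Finset ℕ) : ‖∑ n ∈ F, c n • h n‖ ^ 2 = ∑ n ∈ F, c n ^ 2 * ‖h n‖ ^ 2 := by
  classical
  have ho' : ∀ m n, m ≠ n → inner ℝ (h m) (h n) = 0 := by
    intro m n hmn
    rcases lt_or_gt_of_ne hmn with h1 | h1
    · exact ho m n h1
    · rw [real_inner_comm]; exact ho n m h1
  induction F using Finset.induction_on with
  | empty => simp
  | insert a s ha ih =>
    rw [Finset.sum_insert ha, Finset.sum_insert ha, norm_add_sq_real, ih, norm_smul, mul_pow,
      Real.norm_eq_abs, sq_abs, inner_sum]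
    have : ∑ i ∈ s, inner ℝ (c a • h a) (c i • h i) = 0 := by
      apply Finset.sum_eq_zero
      intro i hi
      rw [inner_smul_left, inner_smul_right, ho' a i (by rintro rfl; exact ha hi)]
      simp
    rw [this]
    ring

theorem no_index_one (h : numIndex ℝ E = 1) (e : (L1 × H) ≃L[ℝ] E)
    (hns : ¬ TopologicalSpace.SeparableSpace H) : False := by
  classical
  set p : E →L[ℝ] L1 × H := (e.symm : E →L[ℝ] L1 × H) with hp
  set c : (L1 × H) →L[ℝ] E := (e : (L1 × H) →L[ℝ] E) with hc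
  have hcp : ∀ z, c (p z) = z := fun z => e.apply_symm_apply z
  set C : ℝ := ‖c‖ + 1 with hC
  set P : ℝ := ‖p‖ + 1 with hP
  have hC1 : 1 ≤ C := by have := norm_nonneg c; linarith
  have hP1 : 1 ≤ P := by have := norm_nonneg p; linarith
  have hcle : ∀ y, ‖c y‖ ≤ C * ‖y‖ := by
    intro y
    refine (c.le_opNorm y).trans ?_
    gcongr
    linarith
  have hple : ∀ z, ‖p z‖ ≤ P * ‖z‖ := by
    intro z
    refine (p.le_opNorm z).trans ?_
    gcongr
    linarith
  set M : ℝ := 4 * C * (2 * P * (18 * P ^ 2 * C ^ 2 + 1) + 1) with hM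
  obtain ⟨N, hN⟩ := exists_nat_gt (M ^ 2)
  have hM0 : 0 < M := by positivity
  have hMN : M < Real.sqrt N := by
    rw [← Real.sqrt_sq hM0.le]
    exact Real.sqrt_lt_sqrt (sq_nonneg _) hN
  have hN0 : (0 : ℝ) ≤ N := Nat.cast_nonneg N
  set τ : ℝ := min (1 / (4 * C)) (1 / (N + 1)) with hτ
  have hτ0 : 0 < τ := by positivity
  have hτ1 : C * τ ≤ 1 / 4 := by
    have : τ ≤ 1 / (4 * C) := min_le_left _ _
    rw [le_div_iff₀ (by positivity)] at this
    linarith
  have hτ2 : N * τ ≤ 1 := by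
    have : τ ≤ 1 / (N + 1) := min_le_right _ _
    rw [le_div_iff₀ (by positivity)] at this
    linarith
  have hτ3 : τ ≤ 1 := by
    have : 1 * τ ≤ C * τ := by gcongr
    linarith
  have hτ4 : τ ≤ 1 / (4 * C) := min_le_left _ _
  set η : ℝ := 1 / (4 * (N + 1)) with hη
  have hη0 : 0 < η := by positivity
  have hηe : η * (4 * (N + 1)) = 1 := by rw [hη]; field_simp
  have hη1 : η ≤ 1 / 4 := by nlinarith
  have hη2 : N * η ≤ 1 / 4 := by nlinarith
  set K : ℕ := 2 * N with hK
  set ε : ℝ := η / (K + 1) ^ 2 with hε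
  have hε0 : 0 < ε := by positivity
  have hεη : ε * (K + 1) ^ 2 = η := by rw [hε]; field_simp
  obtain ⟨s, hs, horth⟩ := chain h e hns hε0 hτ0
  set w : ℕ → E := fun n => (s n).1 - (s n).2.1 with hw
  set g : ℕ → H := fun n => (s n).2.2 with hg
  have hwp : ∀ n, ‖p (w n) - ((0 : L1), g n)‖ ≤ τ := fun n => (hs n).2.2.2
  have hz0 : ∀ n, ‖((0 : L1), g n)‖ = ‖g n‖ := by
    intro n
    rw [Prod.norm_def]
    simp
  -- bounds for `g`
  have hglow : ∀ n, 1 / (4 * C) ≤ ‖g n‖ := by
    intro n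
    have a1 : 1 / 2 ≤ ‖w n‖ := (hs n).2.2.1
    have a2 : ‖w n‖ ≤ C * ‖p (w n)‖ := by
      have := hcle (p (w n))
      rwa [hcp] at this
    have a3 : ‖p (w n)‖ ≤ ‖p (w n) - ((0 : L1), g n)‖ + ‖((0 : L1), g n)‖ := by
      have := norm_add_le (p (w n) - ((0 : L1), g n)) ((0 : L1), g n)
      rwa [sub_add_cancel] at this
    rw [hz0] at a3
    have a4 := hwp n
    have a5 : 1 / 2 ≤ C * (τ + ‖g n‖) := by
      calc 1 / 2 ≤ ‖w n‖ := a1
        _ ≤ C * ‖p (w n)‖ := a2
        _ ≤ C * (τ + ‖g n‖) := by gcongr; linarith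
    rw [div_le_iff₀ (by positivity)]
    nlinarith
  have hgup : ∀ n, ‖g n‖ ≤ 3 * P := by
    intro n
    have a1 : ‖w n‖ ≤ 2 := by
      calc ‖w n‖ ≤ ‖(s n).1‖ + ‖(s n).2.1‖ := norm_sub_le _ _
        _ ≤ 2 := by linarith [(hs n).1.1, (hs n).2.1.1]
    have a2 := hple (w n)
    have a3 : ‖((0 : L1), g n)‖ ≤ ‖p (w n)‖ + ‖p (w n) - ((0 : L1), g n)‖ := by
      have := norm_sub_le (p (w n)) (p (w n) - ((0 : L1), g n))
      rwa [sub_sub_cancel] at this
    rw [hz0] at a3
    have a4 := hwp n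
    nlinarith
  -- general estimate for combinations
  have hcomb : ∀ (F : Finset ℕ) (d : ℕ → ℝ), (∀ n, |d n| ≤ 1) →
      ‖p (∑ n ∈ F, d n • w n) - ((0 : L1), ∑ n ∈ F, d n • g n)‖ ≤ F.card * τ := by
    intro F d hd
    have e1 : p (∑ n ∈ F, d n • w n) - ((0 : L1), ∑ n ∈ F, d n • g n) =
        ∑ n ∈ F, d n • (p (w n) - ((0 : L1), g n)) := by
      have e2 : ((0 : L1), ∑ n ∈ F, d n • g n) = ∑ n ∈ F, d n • ((0 : L1), g n) := by
        rw [Prod.ext_iff, Prod.fst_sum, Prod.snd_sum]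
        simp
      rw [e2]
      simp only [smul_sub, Finset.sum_sub_distrib, map_sum, map_smul]
    rw [e1]
    calc ‖∑ n ∈ F, d n • (p (w n) - ((0 : L1), g n))‖
        ≤ ∑ n ∈ F, ‖d n • (p (w n) - ((0 : L1), g n))‖ := norm_sum_le _ _
      _ ≤ ∑ n ∈ F, 1 * τ := by
          apply Finset.sum_le_sum
          intro n _
          refine (norm_smul_le _ _).trans ?_
          rw [Real.norm_eq_abs]
          gcongr
          · exact hd n
          · exact hwp n
      _ = F.card * τ := by simp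
  have hgsum : ∀ (F : Finset ℕ) (d : ℕ → ℝ), (∀ n, |d n| = 1) →
      ‖∑ n ∈ F, d n • g n‖ ^ 2 = ∑ n ∈ F, ‖g n‖ ^ 2 := by
    intro F d hd
    rw [norm_sq_sum g horth d F]
    apply Finset.sum_congr rfl
    intro n _
    rw [← sq_abs (d n), hd n]
    ring
  -- the vector `x`
  set W : E := ∑ n ∈ Finset.range N, w n with hW
  have hWlow : 2 * P * (18 * P ^ 2 * C ^ 2 + 1) / P < ‖W‖ := by
    have a1 := hcomb (Finset.range N) (fun _ => 1) (fun _ => by simp)
    have a2 := hgsum (Finset.range N) (fun _ => 1) (fun _ => by simp)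
    simp only [one_smul, Finset.card_range] at a1 a2
    have a3 : (N : ℝ) * (1 / (4 * C)) ^ 2 ≤ ‖∑ n ∈ Finset.range N, g n‖ ^ 2 := by
      rw [a2]
      calc (N : ℝ) * (1 / (4 * C)) ^ 2 = ∑ n ∈ Finset.range N, (1 / (4 * C)) ^ 2 := by simp
        _ ≤ ∑ n ∈ Finset.range N, ‖g n‖ ^ 2 := by
            apply Finset.sum_le_sum
            intro n _
            have := hglow n
            gcongr
    have a4 : Real.sqrt N * (1 / (4 * C)) ≤ ‖∑ n ∈ Finset.range N, g n‖ := by
      apply le_of_sq_le_sq _ (norm_nonneg _)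
      rw [mul_pow, Real.sq_sqrt hN0]
      exact a3
    have a5 : ‖((0 : L1), ∑ n ∈ Finset.range N, g n)‖ = ‖∑ n ∈ Finset.range N, g n‖ := by
      rw [Prod.norm_def]
      simp
    have a6 : ‖((0 : L1), ∑ n ∈ Finset.range N, g n)‖ ≤
        ‖p W‖ + ‖p W - ((0 : L1), ∑ n ∈ Finset.range N, g n)‖ := by
      have := norm_sub_le (p W) (p W - ((0 : L1), ∑ n ∈ Finset.range N, g n))
      rwa [sub_sub_cancel] at this
    have a7 := hple W
    have a8 : M * (1 / (4 * C)) < Real.sqrt N * (1 / (4 * C)) := by gcongr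
    have a9 : M * (1 / (4 * C)) = 2 * P * (18 * P ^ 2 * C ^ 2 + 1) + 1 := by
      rw [hM]; field_simp
    rw [div_lt_iff₀ (by positivity)]
    linarith
  have hWpos : 0 < ‖W‖ := lt_of_le_of_lt (by positivity) hWlow
  set x : E := ‖W‖⁻¹ • W with hx
  have hx1 : ‖x‖ = 1 := by
    rw [hx, norm_smul, norm_inv, norm_norm, inv_mul_cancel₀ hWpos.ne']
  set y : ℕ → E := fun n => if n % 2 = 0 then (s (n / 2)).1 else (s (n / 2)).2.1 with hy
  have hys : ∀ n, Spear ε (y n) := by
    intro n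
    simp only [hy]
    split_ifs
    · exact (hs _).1
    · exact (hs _).2.1
  obtain ⟨σ, hσ, hlow⟩ := signs hε0.le y hys x hx1 K (by rw [hεη]; linarith)
  rw [hεη] at hlow
  set z : E := x + ∑ n ∈ Finset.range K, σ n • y n with hz
  have hzne : z ≠ 0 := by
    rw [← norm_pos_iff]
    have : (0 : ℝ) ≤ K := Nat.cast_nonneg K
    linarith
  obtain ⟨f, hf, hfz⟩ := exists_dual_vector ℝ z (norm_ne_zero_iff.mpr hzne)
  simp only [RCLike.ofReal_real_eq_id, id] at hfz
  have hfle : ∀ u : E, ‖u‖ ≤ 1 → |f u| ≤ 1 := by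
    intro u hu
    have := f.le_opNorm u
    rw [hf, one_mul] at this
    exact this.trans hu
  have hσa : ∀ n, |σ n| = 1 := by
    intro n
    rcases hσ n with h1 | h1 <;> rw [h1] <;> norm_num
  set t : ℕ → ℝ := fun n => σ n * f (y n) with ht
  have ht1 : ∀ n, t n ≤ 1 := by
    intro n
    calc t n ≤ |t n| := le_abs_self _
      _ = |σ n| * |f (y n)| := abs_mul _ _
      _ ≤ 1 := by rw [hσa, one_mul]; exact hfle _ (hys n).1
  have hsum : (K : ℝ) + 1 - η ≤ f x + ∑ n ∈ Finset.range K, t n := by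
    have : f z = f x + ∑ n ∈ Finset.range K, t n := by
      rw [hz, map_add, map_sum]
      simp [ht]
    rw [← this, hfz]
    exact hlow
  have hfx1 : f x ≤ 1 := (le_abs_self _).trans (hfle x hx1.le)
  have hfx : 1 - η ≤ f x := by
    have : ∑ n ∈ Finset.range K, t n ≤ K := by
      calc ∑ n ∈ Finset.range K, t n ≤ ∑ n ∈ Finset.range K, (1 : ℝ) :=
            Finset.sum_le_sum fun n _ => ht1 n
        _ = K := by simp
    linarith
  have htlow : ∀ n, n < K → 1 - η ≤ t n := by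
    intro n hn
    have h1 : 1 - t n ≤ ∑ k ∈ Finset.range K, (1 - t k) :=
      Finset.single_le_sum (f := fun k => 1 - t k) (fun k _ => sub_nonneg.mpr (ht1 k))
        (Finset.mem_range.mpr hn)
    rw [Finset.sum_sub_distrib] at h1
    simp only [Finset.sum_const, Finset.card_range, smul_eq_mul, nsmul_eq_mul, mul_one] at h1
    linarith
  -- values on the `w n`
  set a : ℕ → ℝ := fun n => σ (2 * n) with ha
  set b : ℕ → ℝ := fun n => σ (2 * n + 1) with hb
  have hta : ∀ n, t (2 * n) = a n * f (s n).1 := by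
    intro n
    simp only [ht, ha, hy]
    rw [if_pos (by omega), show 2 * n / 2 = n by omega]
  have htb : ∀ n, t (2 * n + 1) = b n * f (s n).2.1 := by
    intro n
    simp only [ht, hb, hy]
    rw [if_neg (by omega), show (2 * n + 1) / 2 = n by omega]
  set F : Finset ℕ := (Finset.range N).filter fun n => a n ≠ b n with hF
  have hw1 : ∀ n, f (w n) = f (s n).1 - f (s n).2.1 := fun n => by simp only [hw]; rw [map_sub]
  have hlo1 : ∀ n, n < N → 1 - η ≤ a n * f (s n).1 := fun n hn => by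
    rw [← hta]; exact htlow _ (by omega)
  have hlo2 : ∀ n, n < N → 1 - η ≤ b n * f (s n).2.1 := fun n hn => by
    rw [← htb]; exact htlow _ (by omega)
  have hup1 : ∀ n, a n * f (s n).1 ≤ 1 := fun n => by rw [← hta]; exact ht1 _
  have hup2 : ∀ n, b n * f (s n).2.1 ≤ 1 := fun n => by rw [← htb]; exact ht1 _
  have hnotF : ∀ n, n < N → a n = b n → f (w n) ≤ η := by
    intro n hn hab
    have b1 := hlo1 n hn
    have b2 := hlo2 n hn
    have b3 := hup1 n
    have b4 := hup2 n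
    rw [hw1]
    rw [← hab] at b2 b4
    rcases hσ (2 * n) with h1 | h1
    · have h1' : a n = 1 := h1
      rw [h1'] at b1 b2 b3 b4
      linarith
    · have h1' : a n = -1 := h1
      rw [h1'] at b1 b2 b3 b4
      linarith
  have hinF : ∀ n, n < N → a n ≠ b n → 2 - 2 * η ≤ a n * f (w n) := by
    intro n hn hab
    have b1 := hlo1 n hn
    have b2 := hlo2 n hn
    rw [hw1]
    have hab' : b n = - a n := by
      rcases hσ (2 * n) with h1 | h1 <;> rcases hσ (2 * n + 1) with h2 | h2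
      · exact absurd (h1.trans h2.symm) hab
      · show σ (2 * n + 1) = - σ (2 * n)
        rw [h1, h2]
      · show σ (2 * n + 1) = - σ (2 * n)
        rw [h1, h2]; norm_num
      · exact absurd (h1.trans h2.symm) hab
    rw [hab'] at b2
    linarith
  have hall : ∀ n, f (w n) ≤ 2 := by
    intro n
    rw [hw1]
    have b1 := abs_le.mp (hfle _ (hs n).1.1)
    have b2 := abs_le.mp (hfle _ (hs n).2.1.1)
    linarith [b1.1, b1.2, b2.1, b2.2]
  have hFcard : ((F.card : ℝ)) ≤ 9 * P ^ 2 * C ^ 2 := by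
    have c1 : (2 - 2 * η) * F.card ≤ f (∑ n ∈ F, a n • w n) := by
      rw [map_sum]
      calc (2 - 2 * η) * F.card = ∑ n ∈ F, (2 - 2 * η) := by simp; ring
        _ ≤ ∑ n ∈ F, f (a n • w n) := by
            apply Finset.sum_le_sum
            intro n hn
            rw [hF, Finset.mem_filter, Finset.mem_range] at hn
            rw [map_smul, smul_eq_mul]
            exact hinF n hn.1 hn.2
    have c2 : f (∑ n ∈ F, a n • w n) ≤ ‖∑ n ∈ F, a n • w n‖ := by
      have := f.le_opNorm (∑ n ∈ F, a n • w n)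
      rw [hf, one_mul] at this
      exact (le_abs_self _).trans this
    have c3 : ‖∑ n ∈ F, a n • w n‖ ≤ C * ‖p (∑ n ∈ F, a n • w n)‖ := by
      have := hcle (p (∑ n ∈ F, a n • w n))
      rwa [hcp] at this
    have c4 := hcomb F a (fun n => (hσa _).le)
    have c5 := hgsum F a (fun n => hσa _)
    have c6 : ‖∑ n ∈ F, a n • g n‖ ≤ Real.sqrt F.card * (3 * P) := by
      apply le_of_sq_le_sq _ (by positivity)
      rw [mul_pow, Real.sq_sqrt (Nat.cast_nonneg _), c5]
      calc ∑ n ∈ F, ‖g n‖ ^ 2 ≤ ∑ n ∈ F, (3 * P) ^ 2 := by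
            apply Finset.sum_le_sum
            intro n _
            have := hgup n
            gcongr
        _ = F.card * (3 * P) ^ 2 := by simp
    have c7 : ‖((0 : L1), ∑ n ∈ F, a n • g n)‖ = ‖∑ n ∈ F, a n • g n‖ := by
      rw [Prod.norm_def]
      simp
    have c8 : ‖p (∑ n ∈ F, a n • w n)‖ ≤
        ‖p (∑ n ∈ F, a n • w n) - ((0 : L1), ∑ n ∈ F, a n • g n)‖ +
        ‖((0 : L1), ∑ n ∈ F, a n • g n)‖ := by
      have := norm_add_le (p (∑ n ∈ F, a n • w n) - ((0 : L1), ∑ n ∈ F, a n • g n))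
        ((0 : L1), ∑ n ∈ F, a n • g n)
      rwa [sub_add_cancel] at this
    have c9 : (2 - 2 * η) * F.card ≤ C * (F.card * τ + Real.sqrt F.card * (3 * P)) := by
      calc (2 - 2 * η) * F.card ≤ C * ‖p (∑ n ∈ F, a n • w n)‖ := c1.trans (c2.trans c3)
        _ ≤ C * (F.card * τ + Real.sqrt F.card * (3 * P)) := by
            gcongr
            linarith
    have hn0 : (0 : ℝ) ≤ F.card := Nat.cast_nonneg _
    have c10 : (F.card : ℝ) ≤ 3 * P * C * Real.sqrt F.card := by
      have d1 : F.card * (C * τ) ≤ F.card * (1 / 4) := by gcongr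
      have d2 : F.card * η ≤ F.card * (1 / 4) := by gcongr
      nlinarith
    set r := Real.sqrt F.card with hr
    have hr2 : r ^ 2 = F.card := Real.sq_sqrt hn0
    have hr0 : 0 ≤ r := Real.sqrt_nonneg _
    rw [← hr2] at c10
    have c11 : r ≤ 3 * P * C := by
      by_contra hcon
      push Not at hcon
      have : 0 < r := lt_of_le_of_lt (by positivity) hcon
      nlinarith
    rw [← hr2]
    calc r ^ 2 ≤ (3 * P * C) ^ 2 := by gcongr
      _ = 9 * P ^ 2 * C ^ 2 := by ring
  have hfW : f W ≤ 2 * F.card + N * η := by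
    rw [hW, map_sum]
    calc ∑ n ∈ Finset.range N, f (w n) ≤
        ∑ n ∈ Finset.range N, ((if a n ≠ b n then 2 else 0) + η) := by
          apply Finset.sum_le_sum
          intro n hn
          split_ifs with h1
          · linarith [hall n]
          · push Not at h1
            rw [zero_add]
            exact hnotF n (Finset.mem_range.mp hn) h1
      _ = 2 * F.card + N * η := by
          rw [Finset.sum_add_distrib, ← Finset.sum_filter]
          simp [hF]
          ring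
  have hfxW : f x = ‖W‖⁻¹ * f W := by rw [hx, map_smul, smul_eq_mul]
  have hfinal : (1 - η) * ‖W‖ ≤ f W := by
    rw [hfxW] at hfx
    have := mul_le_mul_of_nonneg_right hfx hWpos.le
    rwa [mul_comm (‖W‖⁻¹), mul_assoc, inv_mul_cancel₀ hWpos.ne', mul_one] at this
  have hWlow2 : 2 * (18 * P ^ 2 * C ^ 2 + 1) < ‖W‖ := by
    have : 2 * P * (18 * P ^ 2 * C ^ 2 + 1) / P = 2 * (18 * P ^ 2 * C ^ 2 + 1) := by
      field_simp
    rwa [this] at hWlow
  nlinarith

end Pool.Agent.Helper359.NI
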